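import Pool.Agent.Lib.SO5.Blue
import Pool.Agent.Lib.SO4.B_CHAIN

/-! Row CH1: the chain of a nearly optimal walk before its first exit. -/

namespace Pool.Agent.Lib.SO5

open Finset SimpleGraph Pool.Agent.Lib.FP95
open Pool.Agent.Lib.MP_eba68f_pr hiding Nice
open Pool.Agent.Lib.SL94 (SW T exists_lt)
open Pool.Agent.Lib.SX21 (mk sp)
open Pool.Agent.Lib.SO4 (Chain)
open scoped NNReal

namespace CH1

/-- the first leg may be measured in other weights that agree on the initial part of the walk -/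
theorem three (τ σ : Cfg) {u v : V} (q : G.Walk u v) {a b : ℕ} (hab : a ≤ b) (hb : b ≤ q.length)
    (h : ∀ j, j < a → σ s(q.getVert j, q.getVert (j + 1)) = τ s(q.getVert j, q.getVert (j + 1))) :
    T σ u (q.getVert a) + T τ (q.getVert a) (q.getVert b) + T τ (q.getVert b) v ≤
      SW τ q.edges := by
  have a1 := SL94.SEG.T_le_sum σ q (Nat.zero_le a) (hab.trans hb)
  have a2 := SL94.SEG.T_le_sum τ q hab hb
  have a3 := SL94.SEG.T_le_sum τ q hb le_rfl
  rw [Walk.getVert_zero, sum_congr rfl fun j hj => by rw [h j (mem_Ico.1 hj).2]] at a1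
  rw [Walk.getVert_length] at a3
  have a4 := sum_Ico_consecutive (fun j => (τ s(q.getVert j, q.getVert (j + 1)) : ℝ))
    (Nat.zero_le a) hab
  have a5 := sum_Ico_consecutive (fun j => (τ s(q.getVert j, q.getVert (j + 1)) : ℝ))
    (Nat.zero_le b) hb
  rw [SL94.SEG.SW_eq, range_eq_Ico]
  linarith

/-- the first index at distance `D` -/
theorem first {u v : V} (q : G.Walk u v) (D : ℕ) (h : (D : ℝ) ≤ n1 (v - u)) :
    ∃ N, N ≤ q.length ∧ (D : ℝ) ≤ n1 (q.getVert N - u) ∧
      ∀ j, j ≤ N → n1 (q.getVert j - u) ≤ D := by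
  classical
  have ex : ∃ j, j ≤ q.length ∧ (D : ℝ) ≤ n1 (q.getVert j - u) :=
    ⟨q.length, le_rfl, by rwa [Walk.getVert_length]⟩
  obtain ⟨h1, h2⟩ := Nat.find_spec ex
  have h3 : ∀ j, j < Nat.find ex → n1 (q.getVert j - u) < D := fun j hj =>
    not_le.1 fun h' => Nat.find_min ex hj ⟨hj.le.trans h1, h'⟩
  refine ⟨Nat.find ex, h1, h2, fun j hj => ?_⟩
  rcases j with _ | j
  · simp [n1]
  · have h4 := h3 j hj
    have h5 := n1_tri u (q.getVert j) (q.getVert (j + 1))
    rw [n1_adj (q.adj_getVert_succ (lt_of_lt_of_le hj h1))] at h5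
    by_contra h6
    have h7 := SO4.CHAIN.succ_le (not_le.1 h6)
    linarith

end CH1

theorem bCH1 : St_CH1 := by
  intro m τ Γ u v w s hm hw hs hv
  obtain ⟨q, -, hq⟩ := exists_lt (τ := τ) (u := u) (v := v) (lt_add_of_pos_right _ hs)
  obtain ⟨ρ, rfl⟩ : ∃ ρ, m = ρ + 1 := ⟨m - 1, by omega⟩
  obtain ⟨K, rfl⟩ : ∃ K, w = K + 3 := ⟨w - 3, by omega⟩
  unfold Cr Band
  rw [Nat.add_sub_cancel]
  have r0 : (0 : ℝ) ≤ ρ := Nat.cast_nonneg ρ
  have K0 : (0 : ℝ) ≤ K := Nat.cast_nonneg K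
  have rK : (0 : ℝ) ≤ K * ρ := mul_nonneg K0 r0
  obtain ⟨N₁, n0, n2, n3⟩ := CH1.first q ((ρ + 1) * (2 * (K + 3))) (by rwa [Nat.cast_mul])
  rw [Nat.cast_mul] at n2 n3
  set R₀ : ℕ := (ρ + 1) * (K + 4) with hR
  have e : (R₀ : ℝ) = (ρ + 1) * (K + 4) := by
    rw [hR]
    push_cast
    ring
  have hg : ∀ j, j < N₁ → G.Adj (q.getVert j) (q.getVert (j + 1)) := fun j hj =>
    q.adj_getVert_succ (hj.trans_le n0)
  obtain ⟨-, a2, a3, a4⟩ := SO4.CH83.nx_spec (g := q.getVert) (ρ := R₀) hg (Nat.zero_le _) (by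
    rw [Walk.getVert_zero, e]
    push_cast at n2
    nlinarith)
  rw [Walk.getVert_zero, e] at a3 a4
  generalize SO4.CH83.nx q.getVert N₁ R₀ 0 = a at a2 a3 a4
  obtain ⟨N, hN⟩ := Nat.exists_eq_add_of_le a2
  obtain ⟨t, t0, ht⟩ := SO4.CH83.chain (g := fun j => q.getVert (a + j)) (N := N) (ρ := ρ)
    (K := K) (fun j hj => hg (a + j) (by omega)) (by
      have h1 := n1_tri u (q.getVert a) (q.getVert N₁)
      rw [← hN, add_zero]
      push_cast at n2
      nlinarith)
  obtain ⟨c1, c2⟩ := SO4.CH83.chain_sep (g := fun j => q.getVert (a + j)) ht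
  have tN : ∀ j, j ≤ K → t j ≤ N := fun j hj => by
    rcases Nat.eq_zero_or_pos j with rfl | h
    · omega
    · exact (c1 0 j h hj).2
  have up : ∀ j, j ≤ K →
      n1 (q.getVert (a + t j) - u) ≤ (ρ + 1) * (K + 4) + 1 + j * ((ρ : ℝ) + 1) := by
    intro j
    induction j with
    | zero => exact fun _ => by simpa [t0] using a3
    | succ j ih =>
      intro hj
      have h1 := ih (by omega)
      have h2 : n1 (q.getVert (a + t (j + 1)) - q.getVert (a + t j)) ≤ ρ + 1 := (ht j hj).2.2.1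
      have h3 := n1_tri u (q.getVert (a + t j)) (q.getVert (a + t (j + 1)))
      push_cast
      linarith
  have e0 : mk ∅ Γ τ = τ := by
    funext e
    simp [SX21.mk, sp]
  refine ⟨fun j => q.getVert (a + t j), ⟨fun j hj => ?_, fun j j' hj hj' h => ?_⟩, ?_, fun j hj =>
    ⟨?_, ?_⟩, fun j hj => ?_⟩
  · push_cast
    exact le_antisymm (ht j hj).2.2.1 (SO4.CHAIN.succ_le (c2 (j + 1) j hj hj.le (by omega)))
  · push_cast
    exact SO4.CHAIN.succ_le (c2 j j' hj hj' h)
  · have h2 := up 0 (Nat.zero_le _)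
    push_cast at h2 ⊢
    nlinarith
  · have h2 := a4 (a + t j) (by omega) (by have := tN j hj; omega)
    push_cast
    linarith
  · have h1 : (j : ℝ) ≤ K := by exact_mod_cast hj
    have h2 := up j hj
    push_cast
    nlinarith
  · have h1 := (ht j hj).1
    have h2 := (ht j hj).2.1
    refine ⟨(SO4.CHAIN.three τ q (a := a + t j) (b := a + t (j + 1)) (by omega)
      (by omega)).trans hq.le, ?_⟩
    rw [e0]
    refine (CH1.three τ _ q (a := a + t j) (b := a + t (j + 1)) (by omega) (by omega)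
      fun i hi => ?_).trans hq.le
    refine if_neg (not_not.2 fun z hz => ?_)
    rcases Sym2.mem_iff.1 hz with rfl | rfl
    · exact n3 i (by omega)
    · exact n3 (i + 1) (by omega)

end Pool.Agent.Lib.SO5
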