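import Pool.Agent.Lib.SO5.Blue
import Pool.Agent.Lib.SO4.B_CHAIN

/-! Row CH2: the last exit chain after the last visit to the inner ball. -/

namespace Pool.Agent.Lib.SO5

open Finset SimpleGraph Pool.Agent.Lib.FP95
open Pool.Agent.Lib.MP_eba68f_pr hiding Nice
open Pool.Agent.Lib.SL94 (SW T exists_lt)
open Pool.Agent.Lib.SX21 (mk)
open Pool.Agent.Lib.SO4 (Chain)
open scoped NNReal

namespace CH2

theorem mk_off {B : Set (Sym2 V)} (Γ : ℝ≥0) (τ : Cfg) {e : Sym2 V} (h : e ∉ B) :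
    mk B Γ τ e = τ e := by
  simp [SX21.mk, SX21.sp, h]

theorem three (τ τ' : Cfg) {u v : V} (q : G.Walk u v) {a b : ℕ} (hab : a ≤ b) (hb : b ≤ q.length)
    (h : ∀ i, b ≤ i → i < q.length →
      τ' s(q.getVert i, q.getVert (i + 1)) = τ s(q.getVert i, q.getVert (i + 1))) :
    T τ u (q.getVert a) + T τ (q.getVert a) (q.getVert b) + T τ' (q.getVert b) v ≤
      SW τ q.edges := by
  have a1 := SL94.SEG.T_le_sum τ q (Nat.zero_le a) (hab.trans hb)
  have a2 := SL94.SEG.T_le_sum τ q hab hb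
  have a3 := SL94.SEG.T_le_sum τ' q hb le_rfl
  rw [Walk.getVert_zero] at a1
  rw [Walk.getVert_length, sum_congr rfl fun i hi =>
    congrArg NNReal.toReal (h i (mem_Ico.1 hi).1 (mem_Ico.1 hi).2)] at a3
  have a4 := sum_Ico_consecutive (fun j => (τ s(q.getVert j, q.getVert (j + 1)) : ℝ))
    (Nat.zero_le a) hab
  have a5 := sum_Ico_consecutive (fun j => (τ s(q.getVert j, q.getVert (j + 1)) : ℝ))
    (Nat.zero_le b) hb
  rw [SL94.SEG.SW_eq, range_eq_Ico]
  linarith

end CH2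

theorem bCH2 : St_CH2 := by
  intro m τ B Γ u v w s hm hw hs hB hv
  obtain ⟨q, -, hq⟩ := exists_lt (τ := τ) (u := u) (v := v) (lt_add_of_pos_right _ hs)
  obtain ⟨ρ, rfl⟩ : ∃ ρ, m = ρ + 1 := ⟨m - 1, by omega⟩
  obtain ⟨K, rfl⟩ : ∃ K, w = K + 3 := ⟨w - 3, by omega⟩
  unfold Cr Band
  rw [Nat.add_sub_cancel, show mk ∅ Γ τ = τ from funext fun e => CH2.mk_off Γ τ (Set.notMem_empty e)]
  have r0 : (0 : ℝ) ≤ ρ := Nat.cast_nonneg ρ
  have K0 : (0 : ℝ) ≤ K := Nat.cast_nonneg K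
  obtain ⟨R₀, hR⟩ : ∃ R₀ : ℕ, (R₀ : ℝ) = (ρ + 1) * (K + 4) :=
    ⟨(ρ + 1) * (K + 4), by push_cast; ring⟩
  push_cast at hv hB ⊢
  have hg : ∀ j, j < q.length → G.Adj (q.getVert j) (q.getVert (j + 1)) := fun j hj =>
    q.adj_getVert_succ hj
  obtain ⟨-, a2, a3, a4⟩ := SO4.CH83.nx_spec (g := q.getVert) (ρ := R₀) hg (Nat.zero_le _) (by
    rw [Walk.getVert_length, Walk.getVert_zero]
    nlinarith)
  rw [Walk.getVert_zero] at a3 a4
  generalize SO4.CH83.nx q.getVert q.length R₀ 0 = a at a2 a3 a4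
  obtain ⟨N, hN⟩ := Nat.exists_eq_add_of_le a2
  obtain ⟨t, t0, ht⟩ := SO4.CH83.chain (g := fun j => q.getVert (a + j)) (N := N) (ρ := ρ)
    (K := K) (fun j hj => hg (a + j) (by omega)) (by
      have h1 := n1_tri u (q.getVert a) v
      rw [← hN, Walk.getVert_length, add_zero]
      nlinarith)
  obtain ⟨c1, c2⟩ := SO4.CH83.chain_sep (g := fun j => q.getVert (a + j)) ht
  have tN : ∀ j, j ≤ K → t j ≤ N := fun j hj => by
    rcases Nat.eq_zero_or_pos j with rfl | h
    · omega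
    · exact (c1 0 j h hj).2
  have up : ∀ j, j ≤ K → n1 (q.getVert (a + t j) - u) ≤ R₀ + 1 + j * ((ρ : ℝ) + 1) := by
    intro j
    induction j with
    | zero => exact fun _ => by simpa [t0] using a3
    | succ j ih =>
      intro hj
      have h1 := ih (by omega)
      have h2 : n1 (q.getVert (a + t (j + 1)) - q.getVert (a + t j)) ≤ ρ + 1 := (ht j hj).2.2.1
      have h3 := n1_tri u (q.getVert (a + t j)) (q.getVert (a + t (j + 1)))
      push_cast
      linarith
  refine ⟨fun j => q.getVert (a + t j), ⟨fun j hj => ?_, fun j j' hj hj' h => ?_⟩, ?_,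
    fun j hj => ⟨?_, ?_⟩, fun j hj => ?_⟩
  · push_cast
    exact le_antisymm (ht j hj).2.2.1 (SO4.CHAIN.succ_le (c2 (j + 1) j hj hj.le (by omega)))
  · push_cast
    exact SO4.CHAIN.succ_le (c2 j j' hj hj' h)
  · have h2 := up 0 (Nat.zero_le _)
    push_cast at h2
    show n1 (q.getVert (a + t 0) - u) ≤ _
    nlinarith
  · have h2 := a4 (a + t j) (by omega) (by have := tN j hj; omega)
    show _ < n1 (q.getVert (a + t j) - u)
    linarith
  · have h1 : (j : ℝ) ≤ K := by exact_mod_cast hj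
    have h2 := up j hj
    show n1 (q.getVert (a + t j) - u) ≤ _
    nlinarith
  · have h1 := (ht j hj).1
    have h2 := (ht j hj).2.1
    refine ⟨(SO4.CHAIN.three τ q (a := a + t j) (b := a + t (j + 1)) (by omega)
      (by omega)).trans hq.le, (CH2.three τ _ q (a := a + t j) (b := a + t (j + 1)) (by omega)
      (by omega) fun i hi hi' => CH2.mk_off Γ τ fun he => ?_).trans hq.le⟩
    have h3 := hB he _ (Sym2.mem_mk_left _ _)
    have h4 := a4 i (by omega) hi'.le
    nlinarith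

end Pool.Agent.Lib.SO5
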