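import Pool.Agent.Lib.SO5.Blue
import Pool.Agent.Lib.SO4.B_CONCAT

/-! Row CONC: two halves joined by a cheap link, one fixed level. -/

namespace Pool.Agent.Lib.SO5

open MeasureTheory ProbabilityTheory Filter Topology Finset Pool.Agent.Lib.FP95
open Pool.Agent.Lib.MP_eba68f_pr hiding Nice
open Pool.Agent.Lib.SL94 (SW T)
open Pool.Agent.Lib.SB97 (Qt)
open Pool.Agent.Lib.SO4 (So Gain Lin Adm Sh Rare Bad sb Chain)
open scoped NNReal ENNReal

theorem bCONC (hH : SB97.St_HAR) : St_CONC := by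
  intro p hR g π θ H c ρ hA hq hH' hρ hπ hc hcπ hP hG u v α t huv hπα hα hQ
  have θ0 : 0 < θ := hA.1
  have θ1 : θ ≤ 1 := hA.2.1
  have α0 : 0 < α := hπ.trans_le hπα
  have ρ0 : (0 : ℝ) ≤ ρ := Nat.cast_nonneg ρ
  push_cast at huv
  rw [pow_zero, mul_one]
  rcases hR.1.1 u v 1 ρ α θ t H le_rfl hρ α0 hα hA hQ (by push_cast; linarith)
    (by rw [Nat.cast_one, one_mul]; exact hP.trans hπα) with h | ⟨S, y, z, A, B, e, hS, h⟩
  · refine le_trans ?_ (h.trans (p.pr_mono fun τ hτ => ?_))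
    · have h1 : c ^ 2 ≤ c := pow_le_of_le_one hc (by linarith) (by norm_num)
      have h2 : θ * c ^ 2 ≤ 1 * c := mul_le_mul θ1 h1 (by positivity) (by norm_num)
      linarith
    · have h1 : T τ u v ≤ t - H + p.d / 2 := hτ
      change T τ u v ≤ t - (2 * g + p.d / 2)
      linarith
  · obtain ⟨i, hi⟩ : S.Nonempty := card_pos.1 (by omega)
    obtain ⟨i1, i2, he, hy, hz, qA, qB, hAB⟩ := h i hi
    obtain rfl : i = 1 := le_antisymm i2 i1
    have l1 : π * θ ≤ α * θ := mul_le_mul_of_nonneg_right hπα θ0.le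
    have l2 : α * θ ≤ 1 / 2 := by nlinarith
    have y1 : (ρ : ℝ) ≤ p.nn (y 1 - u) := by
      have := hy.1
      push_cast at this
      linarith
    have z1 : (ρ : ℝ) ≤ p.nn (v - z 1) := by
      have h1 := hz.2
      have h2 := p.nn_tri u (z 1) v
      push_cast at h1
      linarith
    have g1 := hG u (y 1) (α * θ) (A 1) y1 l1 l2 qA
    have g2 := hG (z 1) v (α * θ) (B 1) z1 l1 l2 qB
    rw [pow_zero, mul_one] at g1 g2
    exact SO4.CONCAT.join hH p.toPar hc θ0.le g1 g2 (hq.trans he) (by linarith)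

end Pool.Agent.Lib.SO5
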