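import Pool.Agent.Lib.SO5.Blue
import Pool.Agent.Lib.SBW.B_FIN

/-! Row FIN: back to the definitions of the hand-in, both classes of laws. -/

namespace Pool.Agent.Lib.SO5

open MeasureTheory ProbabilityTheory Filter Topology Finset Pool.Agent.Lib.FP95
open Pool.Agent.Lib.MP_eba68f_pr hiding Nice
open Pool.Agent.Lib.SL94 (SW T)
open Pool.Agent.Lib.SBW.FIN (par HK out)
open scoped NNReal ENNReal

namespace FIN

/-- the bound for a law with an atom at its positive minimum -/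
lemma main (γ : ℝ) (hK : SO4.St_KIT) (hD : SO4.St_DICH) (hO : SO4.St_LOC) (hT1 : St_T1)
    (hT2 : St_T2) (hC : St_CORE γ) (s : SO4.So) (hF : s.Few) (hL : HK s.toPar) :
    ∃ c : ℝ, 0 < c ∧ ∃ N : ℝ, ∀ x : V, N ≤ n1 x → MemLp (fun τ => T τ 0 x) 2 s.P →
      Real.exp (c * Real.log (n1 x) ^ γ) ≤ variance (fun τ => T τ 0 x) s.P := by
  obtain ⟨K, K0, hL⟩ := hL
  obtain ⟨⟨-, k1, q0, qk, d0, dh, m2⟩, -⟩ := hK.2 s
  have m0 : (0 : ℝ) < s.m := by exact_mod_cast lt_of_lt_of_le two_pos m2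
  let p : SO4.Ab :=
    { s.toPar with
      q := s.q
      d := s.d
      hi := s.hi
      L := s.m
      q_pos' := q0
      q_le := qk.trans k1
      d_pos := d0
      d_le := dh
      L_ge := m2 }
  obtain ⟨c, c0, N, hN⟩ := hC s.q s.d (K * s.m) s.m q0 (qk.trans k1) d0 (by positivity)
  refine ⟨c, c0, N, hN p ⟨⟨hD s p hF rfl rfl rfl rfl, hO s p rfl rfl⟩, hT1 s p hF rfl rfl rfl rfl,
    hT2 s p hF rfl rfl rfl rfl⟩ rfl rfl rfl fun u w t h => ?_⟩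
  have := hL u w t (le_trans (measureReal_mono fun τ hτ =>
    lt_of_le_of_lt (SL94.T_mono (fun e => le_self_add) u w) hτ) h)
  change t ≤ K * s.m * (n1 (w - u) / s.m)
  rwa [mul_assoc, mul_div_cancel₀ _ m0.ne']

end FIN

theorem bFIN (γ : ℝ) (h1 : SBW.St_FIN1 γ)
    (hL : ∀ (p : Par) (x : V), x ≠ 0 → Integrable (fun τ => T τ 0 x) p.P → HK p)
    (hK : SO4.St_KIT) (hS : SO4.St_SYS) (hD : SO4.St_DICH) (hO : SO4.St_LOC) (hT1 : St_T1)
    (hT2 : St_T2) (hC : St_CORE γ) : SO4.St_FIN γ := by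
  intro F _ r hFr hs h0
  by_cases h2 : F {r} < 1 / 2
  · exact h1 F r hFr hs h2
  obtain ⟨r0, hc⟩ := h0.resolve_left h2
  obtain ⟨s, hs', hF⟩ := hS (par F) r r0 hFr (lt_of_lt_of_le (by norm_num) (not_lt.1 h2)) hc
  by_cases hx : ∃ x : V, x ≠ 0 ∧ MemLp (fun τ => T τ 0 x) 2 (par F).P
  · obtain ⟨x, x0, hm⟩ := hx
    obtain ⟨c, c0, N, h⟩ := FIN.main γ hK hD hO hT1 hT2 hC s hF
      (hs' ▸ hL _ x x0 (hm.integrable (by norm_num)))
    rw [hs'] at h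
    exact ⟨c, c0, N, fun v hv => out (par F) v _ (h v hv)⟩
  · refine ⟨1, one_pos, 1, fun v hv => out (par F) v _ fun hm => (hx ⟨v, ?_, hm⟩).elim⟩
    rintro rfl
    norm_num at hv

end Pool.Agent.Lib.SO5
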