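import Pool.Agent.Lib.SO5.Blue
import Pool.Agent.Lib.SO4.B_ORTH
import Pool.Agent.Lib.SX21.B_KIT

/-! Row GAP: a site of the chain that is not bad is a spot for the replaced weights. -/

namespace Pool.Agent.Lib.SO5

open MeasureTheory ProbabilityTheory Filter Topology Finset SimpleGraph Pool.Agent.Lib.FP95
open Pool.Agent.Lib.MP_eba68f_pr hiding Nice
open Pool.Agent.Lib.SL94 (SW T)
open Pool.Agent.Lib.SO4 (So Bad sb)
open scoped NNReal ENNReal

namespace GAP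

lemma SW_mem {σ : Cfg} {r : ℝ≥0} (h : ∀ e, r ≤ σ e) {e : Sym2 V} (l : List (Sym2 V)) :
    e ∈ l → (σ e : ℝ) + r * l.length ≤ SW σ l + r := by
  induction l with
  | nil => simp
  | cons a l ih =>
    intro he
    have h1 : (r : ℝ) ≤ σ a := h a
    have h2 := SO4.ORTH.SW_ge h l
    simp only [SL94.SW_cons, List.length_cons, Nat.cast_add, Nat.cast_one]
    rcases List.mem_cons.1 he with rfl | he
    · linarith
    · linarith [ih he]

lemma gap (p : So) {τ : Cfg} {y z : V} (h : ∀ e, p.r0 ≤ τ e) (hB : τ ∉ Bad p.hi p.k y)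
    (hz : n1 (z - y) = p.m) : (p.r0 : ℝ) * p.m + p.d ≤ T τ y z := by
  refine SL94.le_T fun q => ?_
  have h1 := n1_le_length q
  have h2 := SO4.ORTH.SW_ge h q.edges
  have hd : p.d = p.hi - p.r0 := rfl
  have hm : p.m = 2 * p.k + 1 := rfl
  rw [Walk.length_edges] at h2
  rw [hz] at h1
  rcases (Nat.cast_le.1 h1).eq_or_lt with h3 | h3
  · have h4 := n1_le_length (q.drop p.k)
    rw [Walk.drop_length, ← h3, Nat.cast_sub (by omega)] at h4
    have h5 := n1_tri y (q.getVert p.k) z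
    by_contra hc
    refine hB ⟨q.getVert, q.getVert_zero, fun j hj => ⟨q.adj_getVert_succ (by omega), ?_⟩,
      by linarith⟩
    have h6 := SW_mem h q.edges (q.mk_mem_edges_iff_exists.2 ⟨j, by omega, rfl⟩)
    rw [Walk.length_edges, ← h3] at h6
    exact NNReal.coe_le_coe.1 (by linarith [not_le.1 hc])
  · have h4 : (p.m : ℝ) + 1 ≤ q.length := by exact_mod_cast h3
    have h5 := mul_le_mul_of_nonneg_left h4 p.r0.coe_nonneg
    linarith [p.le]

lemma mk_ge {r Γ : ℝ≥0} {τ : Cfg} (h : ∀ e, r ≤ τ e) (hΓ : r ≤ Γ) (B : Set (Sym2 V))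
    (e : Sym2 V) : r ≤ SX21.mk B Γ τ e := by
  by_cases he : e ∈ B
  · exact hΓ.trans (SX21.KIT.mk_on Γ τ he).ge
  · exact (h e).trans (SX21.KIT.mk_off Γ τ he).ge

end GAP

theorem bGAP : St_GAP := by
  intro p τ B₁ B₂ Γ u v y z h hΓ hB hz hT
  have h1 := GAP.gap p h hB hz
  have h2 := SL94.T_mono (SO4.ORTH.sb_le (GAP.mk_ge h hΓ B₁) p.m y) u y
  have h3 := SL94.T_mono (SO4.ORTH.sb_le (GAP.mk_ge h hΓ B₂) p.m y) v z
  have h4 := SO4.ORTH.T_up (σ := sb p.r0 p.m y (SX21.mk B₂ Γ τ)) (r := p.r0) (x := z)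
    (fun e he => (SO4.ORTH.sb_in _ he).le) hz.le
  have h5 := SL94.T_tri (sb p.r0 p.m y (SX21.mk B₂ Γ τ)) v z y
  rw [hz] at h4
  rw [SL94.T_comm (SX21.mk B₂ Γ τ) v z] at h3
  unfold RM So.R
  linarith

end Pool.Agent.Lib.SO5
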