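import Pool.Agent.Lib.SO5.Blue

/-! Iteration of the round with fixed levels below the oriented threshold. -/

namespace Pool.Agent.Lib.SO5

open MeasureTheory ProbabilityTheory Filter Topology Finset Pool.Agent.Lib.FP95
open Pool.Agent.Lib.MP_eba68f_pr hiding Nice
open Pool.Agent.Lib.SL94 (SW T)
open Pool.Agent.Lib.SB97 (Qt)
open Pool.Agent.Lib.SO4 (Gain Lin Adm)
open scoped NNReal ENNReal

namespace ITER

lemma gain_zero (p : SO4.Ab) (ρ θ : ℝ) (h0 : 0 ≤ θ) (h1 : θ ≤ 1) :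
    Gain p 0 ρ (θ ^ 7) 0 (θ ^ 27) := by
  intro u v α t _ hα _ hq
  have h6 : θ ^ 27 ≤ θ ^ 7 := pow_le_pow_of_le_one h0 h1 (by norm_num)
  rw [sub_zero, pow_zero, mul_one]
  exact (h6.trans hα).trans hq.2

end ITER

theorem bITER (hS : St_STEP) : St_ITER := by
  intro p hR K θ H C₀ ρ₀ M n hK hL hC hKC hA hq hθ hH hρ hM hP
  have h0 : 0 < θ := hA.1
  have h1 : θ ≤ 1 := hA.2.1
  have hd : 0 < p.d := p.d_pos
  have hM1 : 1 ≤ M := by
    rcases Nat.eq_zero_or_pos M with h | h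
    · rw [h, Nat.cast_zero, mul_zero] at hM
      linarith
    · exact h
  induction n with
  | zero =>
    have e : ((2 : ℝ) ^ 0 - 1) * p.d / 2 = 0 := by simp
    rw [e]
    exact ITER.gain_zero p _ θ h0.le h1
  | succ n ih =>
    have hpow : (0 : ℝ) < 2 ^ n := by positivity
    have hH' : 2 ^ n * p.d ≤ H := by
      have : (2 : ℝ) ^ (n + 1) * p.d = 2 * (2 ^ n * p.d) := by ring
      have h2 : 0 < (2 : ℝ) ^ n * p.d := mul_pos hpow hd
      linarith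
    have hG := ih hH'
    have hρn : ρ₀ ≤ ((12 * C₀ + 66) * M) ^ n * ρ₀ :=
      Nat.le_mul_of_pos_left _ (Nat.pow_pos (Nat.mul_pos (Nat.succ_pos _) hM1))
    have h1n : (1 : ℝ) ≤ 2 ^ n := one_le_pow₀ one_le_two
    have hg : 0 ≤ ((2 : ℝ) ^ n - 1) * p.d / 2 :=
      div_nonneg (mul_nonneg (sub_nonneg.2 h1n) hd.le) zero_le_two
    have hgH : 2 * (((2 : ℝ) ^ n - 1) * p.d / 2) + p.d ≤ H := by
      have : 2 * (((2 : ℝ) ^ n - 1) * p.d / 2) + p.d = 2 ^ n * p.d := by ring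
      rw [this]
      exact hH'
    have := hS p hR K _ θ H C₀ _ M hK hL hC hKC hA hq hθ hg hgH (hρ.trans hρn) hM (hP _ hρn) hG
    have e1 : 2 * (((2 : ℝ) ^ n - 1) * p.d / 2) + p.d / 2 = (2 ^ (n + 1) - 1) * p.d / 2 := by ring
    have e2 : (12 * C₀ + 66) * M * (((12 * C₀ + 66) * M) ^ n * ρ₀) =
        ((12 * C₀ + 66) * M) ^ (n + 1) * ρ₀ := by ring
    rw [e1, e2] at this
    exact this

end Pool.Agent.Lib.SO5
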