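import Pool.Agent.Lib.SO5.Blue

/-! Row MIN: a value below a quantile of the planted time gives a quantile of the passage time. -/

namespace Pool.Agent.Lib.SO5

open MeasureTheory ProbabilityTheory Pool.Agent.Lib.FP95
open Pool.Agent.Lib.MP_eba68f_pr hiding Nice
open Pool.Agent.Lib.SL94 (SW T)
open Pool.Agent.Lib.SB97 (Qt)
open Pool.Agent.Lib.SO4 (So)
open scoped NNReal ENNReal

theorem bMIN (hQ : SB97.St_QUANT) (hK : SO4.St_KIT) : St_MIN := by
  intro p o c β a h0 h1 h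
  obtain ⟨⟨k0, -⟩, -, -, -, hk, -⟩ := hK.2 p
  have h2 : β ≤ p.pr {τ | T τ o c ≤ a} := by
    refine le_trans ?_ (hk o c a)
    rwa [div_le_iff₀' k0] at h
  obtain ⟨s, hs⟩ := hQ p.toPar o c β h0 h1
  rcases le_or_gt s a with k | k
  · exact ⟨s, k, hs⟩
  · exact ⟨a, le_rfl, le_trans (p.toPar.pr_mono fun τ hτ => lt_trans hτ k) hs.1, h2⟩

end Pool.Agent.Lib.SO5
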