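import Pool.Agent.Lib.SO5.Blue
import Pool.Agent.Lib.SX21.B_GOOD

/-! Row ONE: one good site in the band. -/

namespace Pool.Agent.Lib.SO5

open MeasureTheory ProbabilityTheory Filter Topology Finset Pool.Agent.Lib.FP95
open Pool.Agent.Lib.MP_eba68f_pr hiding Nice
open Pool.Agent.Lib.SL94 (SW T)
open Pool.Agent.Lib.SX21 (mk OffS Rep Psi Wn cn)
open Pool.Agent.Lib.SO4 (So Bad BadCh Bx Chain)
open scoped NNReal ENNReal

/-- some site near the inner rim starts a bad chain, or a weight is too small -/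
lemma ONE.bad (hK : SO4.St_KIT) (p : So) (hr : p.Few) (u : V) (w : ℕ) (ε : ℝ) (hw : 6 ≤ w)
    (hs : 200 * (w : ℝ) ^ 2 * (1 / 2) ^ (w - 1) ≤ ε) :
    p.pr ((⋃ y ∈ Bx u (p.m * (w + 2)), BadCh p.hi p.k y (w - 3)) ∪ {τ | ¬∀ e, p.r0 ≤ τ e}) ≤
      ε / 4 := by
  have hL : (1 : ℝ) ≤ p.m := by
    exact_mod_cast le_trans one_le_two (hK.2 p).1.2.2.2.2.2.2
  have hw' : (6 : ℝ) ≤ w := by exact_mod_cast hw
  have k3 : p.pr {τ | ¬∀ e, p.r0 ≤ τ e} = 0 := by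
    unfold Par.pr
    rw [measureReal_def, ae_iff.1 (hK.2 p).2.1, ENNReal.toReal_zero]
  refine (p.pr_union_le _ _).trans ?_
  rw [k3, add_zero]
  have hn1 : 2 * ((p.m * (w + 2) : ℕ) : ℝ) + 1 ≤ 3 * (w : ℝ) * p.m := by
    push_cast
    nlinarith
  refine (p.pr_biUnion_le _ _).trans ?_
  refine (sum_le_card_nsmul _ _ ((1 / 2 : ℝ) ^ (w - 3) / (p.m : ℝ) ^ 2)
    fun y _ => hr y _ (by omega)).trans ?_
  rw [nsmul_eq_mul]
  have c2 := (hK.1 u (p.m * (w + 2))).2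
  have c3 : (2 * ((p.m * (w + 2) : ℕ) : ℝ) + 1) ^ 2 ≤ (3 * (w : ℝ) * p.m) ^ 2 := by gcongr
  have c4 := mul_le_mul_of_nonneg_right (c2.trans c3)
    (by positivity : (0 : ℝ) ≤ (1 / 2) ^ (w - 3) / (p.m : ℝ) ^ 2)
  have c6 : (1 / 2 : ℝ) ^ (w - 1) = (1 / 2) ^ (w - 3) * (1 / 4) := by
    rw [show w - 1 = w - 3 + 2 by omega, pow_add]
    norm_num
  have c5 : (3 * (w : ℝ) * p.m) ^ 2 * ((1 / 2) ^ (w - 3) / (p.m : ℝ) ^ 2) =
      9 * ((w : ℝ) ^ 2 * (1 / 2) ^ (w - 3)) := by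
    field_simp
    norm_num
  have c7 : (0 : ℝ) ≤ (w : ℝ) ^ 2 * (1 / 2) ^ (w - 3) := by positivity
  rw [c6] at hs
  nlinarith

theorem bONE (hK : SO4.St_KIT) (hX : SX21.St_KIT) (hP : SX21.St_PICK) (hK5 : St_KIT)
    (hS : St_SUMC) (hG4 : SO4.St_GAP) (hG : St_GAP) : St_ONE := by
  classical
  intro p hr B₁ B₂ Γ Z u v a b π₁ σ₁ π₂ σ₂ ε θ t H w hΓ hθ hH hA hσ₁ hσ₂ hε hπ₁ hπ₂ h1 h2 hw hZ hs
    hB hR₁ hR₂ hE hC
  obtain ⟨-, -, -, -, -, -, -, x8, x9, x10, -⟩ := hX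
  have hL : (1 : ℝ) ≤ p.m := by
    exact_mod_cast le_trans one_le_two (hK.2 p).1.2.2.2.2.2.2
  have hw' : (6 : ℝ) ≤ w := by exact_mod_cast hw
  obtain ⟨I, hI, hIc⟩ : ∃ I : Finset V, (∀ c, c ∈ I ↔ Band p.m w u c) ∧
      (I.card : ℝ) ≤ 25 * ((p.m : ℝ) * w) ^ 2 := by
    refine ⟨(Bx u (p.m * (2 * w))).filter (Band p.m w u), fun c => ?_, ?_⟩
    · rw [mem_filter, (hK.1 u _).1]
      refine ⟨fun h => h.2, fun h => ⟨h.2.trans ?_, h⟩⟩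
      push_cast
      nlinarith
    · have c1 : (((Bx u (p.m * (2 * w))).filter (Band p.m w u)).card : ℝ) ≤
          (Bx u (p.m * (2 * w))).card := by exact_mod_cast card_filter_le _ _
      have c2 := (hK.1 u (p.m * (2 * w))).2
      have c3 : 2 * ((p.m * (2 * w) : ℕ) : ℝ) + 1 ≤ 5 * ((p.m : ℝ) * w) := by
        push_cast
        nlinarith
      have c4 : (2 * ((p.m * (2 * w) : ℕ) : ℝ) + 1) ^ 2 ≤ (5 * ((p.m : ℝ) * w)) ^ 2 := by gcongr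
      linarith
  have s1 := hS p B₁ Γ Z u v a π₁ σ₁ ε θ t H w I hΓ hθ hH hA hσ₁ hε hπ₁ h1 hw hIc hZ
    (fun c hc => have h := hB c ((hI c).1 hc); ⟨h.1, h.2.2.1, h.2.2.2.1⟩) hR₁
  have s2 := hS p B₂ Γ Z v u b π₂ σ₂ ε θ t H w I hΓ hθ hH hA hσ₂ hε hπ₂ h2 hw hIc hZ
    (fun c hc => have h := hB c ((hI c).1 hc); ⟨h.2.1, h.2.2.1, h.2.2.2.2⟩) (x10 u v t H ▸ hR₂)
  rw [← x9 _ u v] at s2
  let ι : V ↪ V × V := ⟨fun c => (c, c), fun _ _ h => congrArg Prod.fst h⟩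
  obtain ⟨τ, ⟨t1, -⟩, t2, t3⟩ := hP p.toPar (Wn (p.d / 2) u v t H ∩ Z) _ (I.map ι)
    (fun i => EvM p B₁ Γ u v a i.1) (fun i => EvM p B₂ Γ v u b i.1) ε (w - 3) hε (by omega)
    ((x8 _ u v t H).inter hZ) (fun i => (hK5 p B₁ Γ u i.1).2.1 v a)
    (fun i => (hK5 p B₂ Γ v i.1).2.1 u b) hE (ONE.bad hK p hr u w ε hw hs)
    (by
      rw [sum_map, sum_map]
      exact (add_le_add s1 s2).trans (le_of_eq (by ring)))
  rw [Set.mem_union, not_or] at t2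
  have t5 : ∀ e, p.r0 ≤ τ e := not_not.1 t2.2
  obtain ⟨y, y1, y2, y3, y4⟩ := hC τ
  have hm : ∀ j, j < w - 3 → (y j, y j) ∈ I.map ι := fun j hj =>
    mem_map.2 ⟨y j, (hI _).2 (y3 j hj.le), rfl⟩
  have hi : ∀ i j, i < w - 3 → j < w - 3 → (y i, y i) = (y j, y j) → i = j := by
    intro i j hi hj h
    by_contra hne
    have e := y1.2 i j hi.le hj.le hne
    rw [show y i = y j from congrArg Prod.fst h, sub_self] at e
    have : n1 (0 : V) = 0 := by simp [n1]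
    linarith
  have n1' := SX21.GOOD.card_le (fun i => EvM p B₁ Γ u v a i.1) (I.map ι) τ (w - 3)
    (fun j => (y j, y j)) hm hi
  have n2' := SX21.GOOD.card_le (fun i => EvM p B₂ Γ v u b i.1) (I.map ι) τ (w - 3)
    (fun j => (y j, y j)) hm hi
  have n3 : ¬w - 3 ≤ 2 * ((range (w - 3)).filter fun j => τ ∈ Bad p.hi p.k (y j)).card :=
    fun h => t2.1 (Set.mem_biUnion (mem_coe.2 (((hK.1 u _).1 (y 0)).2 (by exact_mod_cast y2)))
      ⟨y, rfl, y1, h⟩)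
  obtain ⟨j, hj, g1, g2, g3⟩ : ∃ j, j < w - 3 ∧ τ ∉ Bad p.hi p.k (y j) ∧
      τ ∉ EvM p B₁ Γ u v a (y j) ∧ τ ∉ EvM p B₂ Γ v u b (y j) := by
    by_contra hno
    have hsub : range (w - 3) ⊆ ((range (w - 3)).filter fun j => τ ∈ Bad p.hi p.k (y j)) ∪
        (((range (w - 3)).filter fun j => τ ∈ EvM p B₁ Γ u v a (y j)) ∪
          ((range (w - 3)).filter fun j => τ ∈ EvM p B₂ Γ v u b (y j))) := by
      intro j hj
      simp only [mem_union, mem_filter]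
      by_contra hcon
      exact hno ⟨j, mem_range.1 hj, fun h => hcon (Or.inl ⟨hj, h⟩),
        fun h => hcon (Or.inr (Or.inl ⟨hj, h⟩)), fun h => hcon (Or.inr (Or.inr ⟨hj, h⟩))⟩
    have e1 := (card_le_card hsub).trans ((card_union_le _ _).trans
      (add_le_add le_rfl (card_union_le _ _)))
    rw [card_range] at e1
    dsimp only at n1' n2'
    omega
  have sp1 := hG4 p τ u v (y j) (y (j + 1)) t5 g1 (y1.1 j hj) (y4 j hj).1
  have sp2 : τ ∈ p.Spot v u (y j) := by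
    have e : p.R τ u (y j) + p.R τ v (y j) + p.d / 2 ≤ T τ u v := sp1
    change p.R τ v (y j) + p.R τ u (y j) + p.d / 2 ≤ T τ v u
    rw [SL94.T_comm τ v u]
    linarith
  have f1 : a (y j) ≤ RM p B₁ Γ τ u (y j) := not_lt.1 fun h => g2 ⟨sp1, h⟩
  have f2 : b (y j) ≤ RM p B₂ Γ τ v (y j) := not_lt.1 fun h => g3 ⟨sp2, h⟩
  have f3 := hG p τ B₁ B₂ Γ u v (y j) (y (j + 1)) t5 hΓ g1 (y1.1 j hj) (y4 j hj).2
  exact ⟨y j, y3 j hj.le, by linarith [t1.2]⟩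

end Pool.Agent.Lib.SO5
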