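import Pool.Agent.Lib.SO5.Blue
import Pool.Agent.Lib.SB97.B_STEP

/-! Row STEP: one round with fixed levels, abstract constants. -/

namespace Pool.Agent.Lib.SO5

open MeasureTheory ProbabilityTheory Filter Topology Finset Pool.Agent.Lib.FP95
open Pool.Agent.Lib.MP_eba68f_pr hiding Nice
open Pool.Agent.Lib.SL94 (SW T)
open Pool.Agent.Lib.SB97 (Qt)
open Pool.Agent.Lib.SX21 (mk OffS Rep Psi Wn)
open Pool.Agent.Lib.SO4 (So Gain Lin Adm Sh Rare Bad sb Chain)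
open scoped NNReal ENNReal

theorem bSTEP (hMo : St_MONO) (hC : St_CONC) (hR : St_RES) : St_STEP := by
  intro p hRa K g θ H C₀ ρ M hK hL hC₀ hKC hA hq hθ hg hH hρ hM hP hG
  have θ0 : 0 < θ := hA.1
  have θ1 : θ ≤ 1 := hA.2.1
  have d0 : 0 < p.d := p.d_pos
  have ρ2 : (2 : ℝ) ≤ ρ := by exact_mod_cast hρ
  have M1 : 1 ≤ M := by
    rcases Nat.eq_zero_or_pos M with h | h
    · subst h
      norm_num at hM
    · exact h
  have ρM : ρ ≤ M * ρ := Nat.le_mul_of_pos_left ρ M1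
  have ρC : ρ ≤ C₀ * ρ := Nat.le_mul_of_pos_left ρ (by omega)
  have e1 : C₀ * (3 * ρ) = 3 * (C₀ * ρ) := by ring
  have e2 : (6 * C₀ + 24) * ρ = 6 * (C₀ * ρ) + 24 * ρ := by ring
  have key : ∀ (x n j : ℕ), x ≤ (6 * C₀ + 24) * M * ρ → ρ ≤ n + 1 → j ≤ 56 →
      200 * (x : ℝ) ^ 2 * (1 / 2) ^ n ≤ θ ^ j := by
    intro x n j hx hn hj
    have h1 : (x : ℝ) ≤ ((6 * C₀ + 24 : ℕ) : ℝ) * M * ρ := by exact_mod_cast hx
    exact ((SB97.STEP.tail (Nat.cast_nonneg x) h1 hn).trans hP).trans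
      (pow_le_pow_of_le_one θ0.le θ1 hj)
  have X6 : 6 * ρ ≤ (6 * C₀ + 24) * M * ρ := by
    have h1 : (6 * C₀ + 24) * M * ρ = 6 * (C₀ * (M * ρ)) + 24 * (M * ρ) := by ring
    omega
  have half : ∀ j : ℕ, θ ^ (j + 1) ≤ θ ^ j / 2 := by
    intro j
    have h1 := mul_le_mul_of_nonneg_left hθ (pow_nonneg θ0.le j)
    rw [pow_succ]
    linarith
  have g1 := hC p hRa g (θ ^ 6) θ H (θ ^ 27) ρ hA hq hH hρ (by positivity) (by positivity)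
    ((pow_le_pow_of_le_one θ0.le θ1 (by norm_num : 6 + 1 ≤ 27)).trans (half 6))
    (key ρ (ρ - 1) 6 (by omega) (by omega) (by norm_num)) (by rw [← pow_succ]; exact hG)
  have e3 : θ * (θ ^ 27) ^ 2 = θ ^ 55 := by ring
  rw [e3] at g1
  have a4 : 4 * K * ((3 * ρ : ℕ) : ℝ) + p.d ≤ p.hi * ((C₀ * (3 * ρ) : ℕ) : ℝ) := by
    push_cast
    have h1 := mul_le_mul_of_nonneg_right hKC (by linarith : (0 : ℝ) ≤ 3 * ρ)
    nlinarith
  have a5 : (1 / 2 : ℝ) ^ (C₀ * (3 * ρ)) ≤ θ ^ 55 / 2 := by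
    have h1 := key 1 (C₀ * (3 * ρ)) 55 (by omega) (by omega) (by norm_num)
    have h3 : (0 : ℝ) ≤ (1 / 2) ^ (C₀ * (3 * ρ)) := by positivity
    rw [Nat.cast_one] at h1
    linarith
  have a2 : 200 * ((M : ℝ) * (((6 * C₀ + 24) * ρ : ℕ) : ℝ)) ^ 2 *
      (1 / 2) ^ ((6 * C₀ + 24) * ρ - 1) ≤ θ ^ 7 := by
    rw [← Nat.cast_mul]
    exact key _ _ 7 (le_of_eq (by ring)) (by omega) (by norm_num)
  have a6 : 32 ≤ θ ^ 52 * M * θ ^ 55 := hM.trans (le_of_eq (by ring))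
  have a7 : (M + 1) * ((6 * C₀ + 24) * ρ) + 6 * (3 * ρ) ≤ (12 * C₀ + 66) * M * ρ := by
    have h2 : C₀ * ρ ≤ M * (C₀ * ρ) := Nat.le_mul_of_pos_left _ M1
    have h3 : (M + 1) * ((6 * C₀ + 24) * ρ) =
      6 * (M * (C₀ * ρ)) + 24 * (M * ρ) + 6 * (C₀ * ρ) + 24 * ρ := by ring
    have h4 : (12 * C₀ + 66) * M * ρ = 12 * (M * (C₀ * ρ)) + 66 * (M * ρ) := by ring
    omega
  refine hMo p _ _ _ _ (by positivity) (pow_lt_one₀ θ0.le (by linarith) (by norm_num)) ?_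
  intro u v t huv hQ
  exact hR p hRa K hK hL (2 * g + p.d / 2) θ H (θ ^ 55) (3 * ρ) (C₀ * (3 * ρ)) M
    ((6 * C₀ + 24) * ρ) hA hq hθ (by linarith) (by linarith) (by positivity) g1 (by omega) a4
    (key (3 * ρ) (3 * ρ - 1) 13 (by omega) (by omega) (by norm_num))
    (key (2 * (3 * ρ)) (2 * (3 * ρ) - 1) 8 (by omega) (by omega) (by norm_num))
    a5 M1 (by omega) a2 a6 u v t ((Nat.cast_le.2 a7).trans huv) hQ

end Pool.Agent.Lib.SO5
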