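import Pool.Agent.Lib.SO5.Blue
import Pool.Agent.Lib.SO4.B_MARTB

/-! Row SUM: the martingale bound for the replaced growth. -/

namespace Pool.Agent.Lib.SO5

open MeasureTheory Pool.Agent.Lib.FP95
open Pool.Agent.Lib.SL94 (T T_meas T_tri T_comm)
open Pool.Agent.Lib.SO4 (sb)

theorem bSUM (hK : SO4.St_KIT) (hO : SO4.St_ORTH) : St_SUM := by
  intro p B Γ Z o x a π S t H lam I hΓ hl hH hZ hI hR
  obtain ⟨-, hae, hm, -⟩ := hK.2 p
  refine SO4.MARTB.core p B Γ o a hO hae hΓ hZ I hl hH hI hR _ (fun c => ?_)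
    fun c τ h => ⟨⟨h.1.2, h.2.2⟩, ?_, h.2.1⟩
  · exact ((measurableSet_le (((hm o c).add (hm x c)).add_const _) (T_meas o x)).inter
      (measurableSet_lt ((hm o c).comp (SX21.KIT.mk_meas B Γ)) measurable_const)).inter
      (((measurableSet_le measurable_const (T_meas o x)).inter
        (measurableSet_le (T_meas o x) measurable_const)).inter hZ)
  · have h1 : T (sb p.r0 p.m c τ) o c + T (sb p.r0 p.m c τ) x c + p.d / 2 ≤ T τ o x := h.1.1
    linarith [T_tri (sb p.r0 p.m c τ) o c x, T_comm (sb p.r0 p.m c τ) c x]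

end Pool.Agent.Lib.SO5
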