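import Pool.Agent.Lib.SO5.Blue

/-! Row SUMC: the martingale bound with the constants. -/

namespace Pool.Agent.Lib.SO5

open MeasureTheory ProbabilityTheory Filter Topology Finset Pool.Agent.Lib.FP95
open Pool.Agent.Lib.MP_eba68f_pr hiding Nice
open Pool.Agent.Lib.SL94 (SW T)
open Pool.Agent.Lib.SB97 (Qt)
open Pool.Agent.Lib.SX21 (mk OffS Rep Psi Wn)
open Pool.Agent.Lib.SO4 (So Gain Lin Adm Sh Rare Bad sb Chain)
open scoped NNReal ENNReal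

namespace SUMC

lemma arith {κ d D m w ε σ π θ H n X : ℝ} (κ0 : 0 < κ) (κ1 : κ ≤ 1) (d0 : 0 < d) (D0 : 0 < D)
    (m0 : 0 < m) (w6 : 6 ≤ w) (ε0 : 0 < ε) (σ0 : 0 < σ) (π0 : 0 ≤ π) (H0 : 0 < H)
    (hA : (2560 * H) ^ 2 * θ ≤ (κ ^ 2 / (D * m) * d) ^ 2) (hσ : κ * (σ * π) ≤ ε ^ 2 * θ)
    (hn : n ≤ 25 * (m * w) ^ 2)
    (key : κ * d / 2 * X ≤ κ * d * w * ε / (256 * H ^ 2 * σ) / 2 * (H ^ 2 * σ) +
      D ^ 2 * π / (2 * (κ * d * w * ε / (256 * H ^ 2 * σ))) * n) : X ≤ ε * (w - 3) / 64 := by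
  have w0 : 0 < w := by linarith
  have e3 := mul_le_mul_of_nonneg_left hn
    (show 0 ≤ D ^ 2 * π / (2 * (κ * d * w * ε / (256 * H ^ 2 * σ))) by positivity)
  have e4 : D ^ 2 * π / (2 * (κ * d * w * ε / (256 * H ^ 2 * σ))) * (25 * (m * w) ^ 2) =
      (D * m) ^ 2 * w / (2048 * κ ^ 2 * d * ε) * ((2560 * H) ^ 2 * (κ * (σ * π))) := by
    field_simp
    ring
  have e5 : κ * d * w * ε / (256 * H ^ 2 * σ) / 2 * (H ^ 2 * σ) = κ * d * (w * ε) / 512 := by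
    field_simp
    ring
  have e6 : (2560 * H) ^ 2 * (κ * (σ * π)) ≤ ε ^ 2 * (κ ^ 2 / (D * m) * d) ^ 2 := by
    have k1 := mul_le_mul_of_nonneg_left hσ (sq_nonneg (2560 * H))
    have k2 := mul_le_mul_of_nonneg_left hA (sq_nonneg ε)
    linarith
  have e7 := mul_le_mul_of_nonneg_left e6
    (show 0 ≤ (D * m) ^ 2 * w / (2048 * κ ^ 2 * d * ε) by positivity)
  have e8 : (D * m) ^ 2 * w / (2048 * κ ^ 2 * d * ε) * (ε ^ 2 * (κ ^ 2 / (D * m) * d) ^ 2) =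
      κ * (κ * d * (w * ε)) / 2048 := by
    field_simp
  have e0 : 0 ≤ κ * d * (w * ε) := by positivity
  have e1 := mul_le_mul_of_nonneg_right κ1 e0
  have e9 : X ≤ w * ε / 128 :=
    le_of_mul_le_mul_left (a := κ * d / 2) (by linarith) (by positivity)
  have := mul_le_mul_of_nonneg_right w6 ε0.le
  linarith

end SUMC

theorem bSUMC (hK : SO4.St_KIT) (hS : St_SUM) : St_SUMC := by
  intro p B Γ Z o x a π σ ε θ t H w I hΓ _ H0 h σ0 ε0 π0 hσ hw hc hZ hI hR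
  obtain ⟨⟨κ0, κ1, -, -, d0, -, m2⟩, -⟩ := hK.2 p
  have w6 : (6 : ℝ) ≤ w := by exact_mod_cast hw
  have m1 : (1 : ℝ) ≤ p.m := by exact_mod_cast le_trans one_le_two m2
  have key := hS p B Γ Z o x a π (H ^ 2 * σ) t H
    (p.kap * p.d * w * ε / (256 * H ^ 2 * σ)) I hΓ (by positivity) H0.le hZ hI hR
  rw [Nat.cast_sub (by omega), Nat.cast_ofNat]
  exact SUMC.arith κ0 κ1 d0 (by linarith) (by linarith) w6 ε0 σ0 π0 H0 h hσ hc key

end Pool.Agent.Lib.SO5
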