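import Pool.Agent.Lib.SO5.Blue

/-! Row T1: the outside decides much, the near leg has a high level. -/

namespace Pool.Agent.Lib.SO5

open MeasureTheory ProbabilityTheory Filter Topology Finset Pool.Agent.Lib.FP95
open Pool.Agent.Lib.MP_eba68f_pr hiding Nice
open Pool.Agent.Lib.SL94 (SW T)
open Pool.Agent.Lib.SB97 (Qt)
open Pool.Agent.Lib.SX21 (mk OffS Rep Psi Wn)
open Pool.Agent.Lib.SO4 (So Gain Lin Adm Sh Rare Bad sb Chain Bx)
open scoped NNReal ENNReal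

lemma T1r.six {w : ℕ} (hw : 2 ≤ w) (h : 200 * (w : ℝ) ^ 2 * (1 / 2) ^ (w - 1) ≤ 1) : 6 ≤ w := by
  by_contra hc
  have h5 : w ≤ 5 := by omega
  interval_cases w <;> norm_num at h

lemma T1r.big (I : Finset V) (a : V → ℝ) (r : ℝ≥0) :
    ∃ Γ : ℝ≥0, r ≤ Γ ∧ ∀ c ∈ I, a c ≤ Γ := by
  refine ⟨r + ∑ c ∈ I, (a c).toNNReal, le_self_add, fun c hc => ?_⟩
  have h1 : (a c).toNNReal ≤ r + ∑ c ∈ I, (a c).toNNReal :=
    (single_le_sum (f := fun c => (a c).toNNReal) (fun _ _ => zero_le) hc).trans le_add_self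
  exact (Real.le_coe_toNNReal _).trans (NNReal.coe_le_coe.2 h1)

theorem bT1 (hK : SO4.St_KIT) (hX : SX21.St_KIT) (hIND : SX21.St_IND) (hKIT : St_KIT)
    (hCH1 : St_CH1) (hONE : St_ONE) (hMIN : St_MIN) : St_T1 := by
  classical
  intro p p' hr eP eq ed eL Z u v α κ θ t H w hA hα hα1 hκ hκ1 hw hd hs hZ hoff h1 h2
  obtain ⟨hθ, hθ1, hH, hA⟩ := hA
  rw [p'.le_nn, eL] at hd
  have hq1 := p'.q_le
  simp only [Sh, p'.lt_nn, p'.nn_le]
  rw [eq, ed] at hA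
  rw [eP] at h1 h2
  unfold SO4.Ab.nr at hoff
  rw [eL] at hoff
  rw [eP, ed, eL]
  obtain ⟨⟨k0, k1', q0, qk, d0, -, m2⟩, -, -, -, -, hRQ⟩ := hK.2 p
  obtain ⟨-, -, -, -, -, -, -, -, -, -, -, k12, -⟩ := hX
  by_cases hG : κ * α / 4 ≤ p.pr {τ | T τ u v ≤ t - H + p.d / 2}
  · exact Or.inl hG
  right
  have hκα : 0 < κ * α := mul_pos hκ hα
  have hκα1 : κ * α ≤ 1 := mul_le_one₀ hκ1 hα.le hα1
  have hHd : p.d / 2 < H := by
    by_contra hc
    have := p.pr_mono (A := {τ | T τ u v < t} ∩ Z) (B := {τ | T τ u v ≤ t - H + p.d / 2})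
      fun τ hτ => show T τ u v ≤ t - H + p.d / 2 by
        have : T τ u v < t := hτ.1
        linarith [not_lt.1 hc]
    exact hG (by linarith)
  have hθk : θ ≤ p.kap := by
    have e1 : p.d ^ 2 ≤ (2560 * H) ^ 2 := by gcongr; linarith
    have e2 : p.d ^ 2 * θ ≤ p.d ^ 2 * p.q ^ 2 := by nlinarith
    have e3 := le_of_mul_le_mul_left e2 (by positivity)
    nlinarith
  have hκθ0 : 0 < κ * θ := mul_pos hκ hθ
  have hκθ : κ * θ ≤ θ := mul_le_of_le_one_left hθ.le hκ1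
  have hκαθ0 : 0 < κ * α * θ := mul_pos hκα hθ
  have hκαθ : κ * α * θ ≤ θ := mul_le_of_le_one_left hθ.le hκα1
  have g0 : 0 < κ * θ / 2 / p.kap := div_pos (half_pos hκθ0) k0
  have g1 : κ * θ / 2 / p.kap < 1 := by
    rw [div_lt_one k0]
    linarith
  have g2 : 0 < κ * α * θ / 2 / p.kap := div_pos (half_pos hκαθ0) k0
  have g3 : κ * α * θ / 2 / p.kap < 1 := by
    rw [div_lt_one k0]
    linarith
  choose a ha using fun c => hRQ u c _ g0 g1
  choose b hb using fun c => hRQ v c _ g2 g3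
  obtain ⟨ps, hps⟩ : ∃ ps, ps = p.pr ({τ | T τ u v < t} ∩ Z) := ⟨_, rfl⟩
  rw [← hps] at h1 h2
  have hps0 : 0 < ps := by linarith
  have w6 : 6 ≤ w := T1r.six hw (by linarith)
  have m0 : (2 : ℝ) ≤ p.m := by exact_mod_cast m2
  have w0 : (6 : ℝ) ≤ w := by exact_mod_cast w6
  obtain ⟨Γ, hΓ1, hΓ2⟩ := T1r.big (Bx u (p.m * (2 * w))) a p.r0
  have hcr := fun τ => hCH1 p.m τ Γ u v w (p.d / 2) (by omega) (by omega) (half_pos d0) hd
  obtain ⟨B, hB⟩ : ∃ B, B = near u ((p.m : ℝ) * ((2 * w : ℕ) : ℝ)) := ⟨_, rfl⟩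
  have hsub : ∀ c, Band p.m w u c → near c p.m ⊆ B := by
    intro c hc e he
    rw [hB]
    intro x hx
    have e1 := he x hx
    have e2 := n1_tri u c x
    have e3 := hc.2
    push_cast
    linarith
  have haΓ : ∀ c, Band p.m w u c → a c ≤ Γ := fun c hc =>
    hΓ2 c (((hK.1 u _).1 c).2 (by
      have e3 := hc.2
      push_cast
      linarith))
  rw [← hB] at hcr hoff
  have tk : 0 < θ / p.kap := div_pos hθ k0
  have c1 : ∀ c, Band p.m w u c →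
      p.pr ({τ | RM p Bᶜ Γ τ u c < a c} ∩ Z) ≤ θ / p.kap * ps := by
    intro c hc
    obtain ⟨j1, -, -, j4, j5⟩ := hKIT p Bᶜ Γ u c
    have e2 := (j5 (a c) (haΓ c hc) (Set.disjoint_compl_right_iff_subset.2 (hsub c hc))).trans
      (ha c).1
    have e3 := hIND p.toPar B {τ | RM p Bᶜ Γ τ u c < a c} Z
      (measurableSet_lt j1 measurable_const) hZ (j4 _) hoff
    have e4 := mul_le_mul_of_nonneg_right e2 (p.pr_nonneg Z)
    have e5 := mul_le_mul_of_nonneg_left h2 tk.le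
    calc _ = _ := e3
      _ ≤ κ * θ / 2 / p.kap * p.pr Z := e4
      _ = θ / p.kap * (κ / 2 * p.pr Z) := by ring
      _ ≤ _ := e5
  have c2 : ∀ c, p.pr ({τ | RM p ∅ Γ τ v c < b c} ∩ Z) ≤ θ / p.kap * ps := by
    intro c
    simp only [(hKIT p ∅ Γ v c).2.2.1]
    have e1 := (p.pr_mono (Set.inter_subset_left (s := {τ | p.R τ v c < b c}) (t := Z))).trans
      (hb c).1
    have e2 := mul_le_mul_of_nonneg_left h1 tk.le
    calc _ ≤ _ := e1
      _ = θ / p.kap * (κ * α / 2) := by ring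
      _ ≤ _ := e2
  have c3 : ps / 2 ≤ p.pr (Wn (p.d / 2) u v t H ∩ Z) := by
    have hs' : {τ : Cfg | T τ u v < t} ∩ Z ⊆
        (Wn (p.d / 2) u v t H ∩ Z) ∪ {τ | T τ u v ≤ t - H + p.d / 2} := by
      rintro τ ⟨hτ, hτZ⟩
      by_cases h : T τ u v ≤ t - H + p.d / 2
      · exact Or.inr h
      · exact Or.inl ⟨⟨(not_le.1 h).le, le_of_lt hτ⟩, hτZ⟩
    have e1 := (p.pr_mono hs').trans (p.pr_union_le _ _)
    rw [← hps] at e1
    linarith [not_le.1 hG]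
  have c4 : p.kap * (ps * (θ / p.kap * ps)) ≤ ps ^ 2 * θ := le_of_eq (by field_simp)
  obtain ⟨c, hc, hab⟩ := hONE p hr Bᶜ ∅ Γ Z u v a b (θ / p.kap * ps) ps (θ / p.kap * ps) ps ps θ
    t H w hΓ1 hθ hH hA hps0 hps0 hps0 (mul_pos tk hps0).le (mul_pos tk hps0).le c4 c4 w6 hZ
    (hs.trans h1)
    (fun c hc => ⟨Set.disjoint_compl_right_iff_subset.2 (hsub c hc), Set.disjoint_empty _,
      fun τ τ' h hτ => hoff τ τ' (fun e he => h e fun he' => he (hsub c hc he')) hτ,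
      c1 c hc, c2 c⟩)
    (k12 p.toPar Bᶜ Z u v t H ps hH.le hZ hps.ge) (k12 p.toPar ∅ Z u v t H ps hH.le hZ hps.ge)
    c3 hcr
  obtain ⟨A, hA1, hA2⟩ := hMIN p u c _ (a c) (half_pos hκθ0) (by linarith) (ha c).2
  obtain ⟨A', hB1, hB2⟩ := hMIN p v c _ (b c) (half_pos hκαθ0) (by linarith) (hb c).2
  have sh : (p.m : ℝ) * ((1 * w : ℕ) : ℝ) < n1 (c - u) ∧
      n1 (c - u) ≤ (p.m : ℝ) * (((1 + 1) * w : ℕ) : ℝ) := by
    have e1 := hc.1
    have e2 := hc.2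
    push_cast
    constructor <;> linarith
  refine ⟨c, c, A, A', 0, ?_, sh, sh, hA2, ?_, by linarith⟩
  · simp only [SL94.T_self, le_refl, Set.ofPred_true, Par.pr_univ]
    exact hq1
  · simpa only [Qt, SL94.T_comm _ v c] using hB2

end Pool.Agent.Lib.SO5
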