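import Pool.Agent.Lib.SO5.Blue

/-! Row T2: the outside decides little, the far leg has a high level. -/

namespace Pool.Agent.Lib.SO5

open MeasureTheory ProbabilityTheory Filter Topology Finset Pool.Agent.Lib.FP95
open Pool.Agent.Lib.MP_eba68f_pr hiding Nice
open Pool.Agent.Lib.SL94 (SW T)
open Pool.Agent.Lib.SB97 (Qt)
open Pool.Agent.Lib.SX21 (mk OffS Rep Psi Wn)
open Pool.Agent.Lib.SO4 (So Gain Lin Adm Sh Rare Bad sb Chain)
open scoped NNReal ENNReal

theorem bT2 (hK : SO4.St_KIT) (hX : SX21.St_KIT) (hK' : St_KIT) (hC : St_CH2) (hO : St_ONE)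
    (hM : St_MIN) : St_T2 := by
  intro p p' hr eP eq ed eL B u v α κ θ t H w hA hα hα2 hκ hl hw hB hd hs hq hR
  obtain ⟨hθ, hθ1, hH, hA⟩ := hA
  rw [p'.le_nn, eL] at hd
  have hq1 := p'.q_le
  have hB' : B ⊆ near u ((p.m : ℝ) * w) := by rw [← eL]; exact hB
  simp only [Sh, p'.lt_nn, p'.nn_le]
  rw [eq, ed] at hA
  rw [eq] at hl
  rw [eP] at hq hR
  rw [eP, ed, eL]
  obtain ⟨⟨k0, k1', q0, qk, d0, -, hm⟩, -, -, -, -, hRQ⟩ := hK.2 p
  obtain ⟨-, -, -, -, -, -, -, -, -, -, -, k12, -⟩ := hX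
  by_cases hG : α / 2 ≤ p.pr {τ | T τ u v ≤ t - H + p.d / 2}
  · exact Or.inl hG
  right
  have hw6 : 6 ≤ w := by
    by_contra hc
    have hc' : w ≤ 5 := by omega
    interval_cases w <;> norm_num at hs <;> linarith
  have hHd : p.d / 2 < H := by
    by_contra hc
    have := p.pr_mono (A := {τ | T τ u v ≤ t}) (B := {τ | T τ u v ≤ t - H + p.d / 2})
      fun τ (hτ : T τ u v ≤ t) => show T τ u v ≤ t - H + p.d / 2 by linarith [not_lt.1 hc]
    exact hG (by linarith [hq.2])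
  have hθk : θ ≤ p.kap := by
    have e1 : p.d ^ 2 ≤ (2560 * H) ^ 2 := by gcongr; linarith
    have e2 : p.d ^ 2 * θ ≤ p.d ^ 2 * p.q ^ 2 := by nlinarith
    have e3 := le_of_mul_le_mul_left e2 (by positivity)
    nlinarith
  have h0 : 0 < α * θ := mul_pos hα hθ
  have h1 : α * θ < 1 := by nlinarith
  have h2 : 0 < α * θ / κ := div_pos h0 hκ
  have h3 : α * θ / κ < 1 := by linarith
  have g0 : 0 < α * θ / p.kap := div_pos h0 k0
  have g1 : α * θ / p.kap < 1 := by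
    rw [div_lt_one k0]
    nlinarith
  have g2 : 0 < α * θ / κ / p.kap := div_pos h2 k0
  have g3 : α * θ / κ / p.kap < 1 := by
    rw [div_lt_one k0]
    linarith
  choose a ha using fun c => hRQ u c _ g0 g1
  choose b hb using fun c => hRQ v c _ g2 g3
  have hm0 : (0 : ℝ) ≤ p.m := Nat.cast_nonneg _
  obtain ⟨Γ, hΓ1, hΓ2⟩ : ∃ Γ : ℝ≥0, p.r0 ≤ Γ ∧ ∀ c, Band p.m w u c → b c ≤ Γ := by
    classical
    obtain ⟨M, hM'⟩ := ((SO4.Bx u (p.m * (2 * w))).image b).exists_le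
    refine ⟨max p.r0 M.toNNReal, le_max_left _ _, fun c hc => ?_⟩
    have e1 : c ∈ SO4.Bx u (p.m * (2 * w)) := by
      refine ((hK.1 u _).1 c).2 (hc.2.trans ?_)
      push_cast
      nlinarith
    refine (hM' _ (mem_image_of_mem b e1)).trans ((Real.le_coe_toNNReal M).trans ?_)
    exact NNReal.coe_le_coe.2 (le_max_right _ _)
  obtain ⟨c, c1, c2⟩ := hO p hr ∅ B Γ Set.univ u v a b (α * θ / p.kap) α (α * θ / κ / p.kap)
    (κ * α) α θ t H w hΓ1 hθ hH hA hα (mul_pos hκ hα) hα g0.le g2.le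
    (le_of_eq (by field_simp)) (le_of_eq (by field_simp)) hw6 MeasurableSet.univ hs
    (fun c hc => by
      have e1 : Disjoint (near c p.m) B :=
        (near_disjoint (by linarith [hc.1])).mono_right hB'
      refine ⟨Set.disjoint_empty _, e1, fun _ _ _ _ => trivial, ?_, ?_⟩
      · simpa only [(hK' p ∅ Γ u c).2.2.1, Set.inter_univ] using (ha c).1
      · rw [Set.inter_univ]
        exact ((hK' p B Γ v c).2.2.2.2 _ (hΓ2 c hc) e1).trans (hb c).1)
    (k12 p.toPar ∅ Set.univ u v t H α hH.le MeasurableSet.univ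
      (by rw [Set.inter_univ]; exact hq.1)) hR
    (by
      rw [Set.inter_univ]
      have hsub : {τ : Cfg | T τ u v ≤ t} ⊆
          {τ | T τ u v ≤ t - H + p.d / 2} ∪ Wn (p.d / 2) u v t H := fun τ hτ => by
        by_cases h : T τ u v ≤ t - H + p.d / 2
        · exact Or.inl h
        · exact Or.inr ⟨le_of_not_ge h, hτ⟩
      have e1 := (p.pr_mono hsub).trans (p.pr_union_le _ _)
      linarith [hq.2, not_le.1 hG])
    (fun τ => hC p.m τ B Γ u v w (p.d / 2) (by omega) (by omega) (half_pos d0) hB' hd)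
  obtain ⟨A, a1, a2⟩ := hM p u c _ (a c) h0 h1 (ha c).2
  obtain ⟨A', b1, b2⟩ := hM p v c _ (b c) h2 h3 (hb c).2
  have sh : (p.m : ℝ) * ((1 * w : ℕ) : ℝ) < n1 (c - u) ∧
      n1 (c - u) ≤ (p.m : ℝ) * (((1 + 1) * w : ℕ) : ℝ) := by
    have e1 := c1.1
    have e2 := c1.2
    push_cast
    constructor <;> nlinarith
  refine ⟨c, c, A, A', 0, ?_, sh, sh, a2, ?_, by linarith⟩
  · simp only [SL94.T_self, le_refl, Set.ofPred_true, Par.pr_univ]
    exact hq1
  · simpa only [Qt, SL94.T_comm _ v c] using b2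

end Pool.Agent.Lib.SO5
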