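import Pool.Agent.Lib.SO5.B_KIT
import Pool.Agent.Lib.SO5.B_SUM
import Pool.Agent.Lib.SO5.B_SUMC
import Pool.Agent.Lib.SO5.B_CH1
import Pool.Agent.Lib.SO5.B_CH2
import Pool.Agent.Lib.SO5.B_GAP
import Pool.Agent.Lib.SO5.B_ONE
import Pool.Agent.Lib.SO5.B_MIN
import Pool.Agent.Lib.SO5.B_T1
import Pool.Agent.Lib.SO5.B_T2
import Pool.Agent.Lib.SO5.B_SPLIT
import Pool.Agent.Lib.SO5.B_MONO
import Pool.Agent.Lib.SO5.B_CONC
import Pool.Agent.Lib.SO5.B_RES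
import Pool.Agent.Lib.SO5.B_STEP
import Pool.Agent.Lib.SO5.B_ITER
import Pool.Agent.Lib.SO5.B_TOP
import Pool.Agent.Lib.SO5.B_CORE
import Pool.Agent.Lib.SO5.B_FIN
import Pool.Agent.Lib.SO4.B_KIT
import Pool.Agent.Lib.SO4.B_ORTH
import Pool.Agent.Lib.SO4.B_MARTB
import Pool.Agent.Lib.SO4.B_MARK
import Pool.Agent.Lib.SO4.B_CHAIN
import Pool.Agent.Lib.SO4.B_GAP
import Pool.Agent.Lib.SO4.B_DET
import Pool.Agent.Lib.SO4.B_DICH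
import Pool.Agent.Lib.SO4.B_LOC
import Pool.Agent.Lib.SO4.B_BRIDGE
import Pool.Agent.Lib.SO4.B_SMALL
import Pool.Agent.Lib.SO4.B_PEIB
import Pool.Agent.Lib.SO4.B_SYS
import Pool.Agent.Lib.SO4.B_RESET
import Pool.Agent.Lib.SX21.All

/-! Assembly of the rows, full class of laws, fixed levels. -/

namespace Pool.Agent.Lib.SO5

theorem st_DICH : SO4.St_DICH :=
  SO4.bDICH SB97.bQUANT SO4.bKIT (SO4.bDET SO4.bKIT SO4.bCHAIN SO4.bGAP)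
    (SO4.bMARK SO4.bKIT (SO4.bMARTB SO4.bKIT SO4.bORTH))

theorem st_KIT : St_KIT := bKIT SO4.bKIT SX21.bKIT

theorem st_MIN : St_MIN := bMIN SB97.bQUANT SO4.bKIT

theorem st_SUM : St_SUM := bSUM SO4.bKIT SO4.bORTH

theorem st_ONE : St_ONE :=
  bONE SO4.bKIT SX21.bKIT SX21.bPICK st_KIT (bSUMC SO4.bKIT st_SUM) SO4.bGAP bGAP

theorem st_T1 : St_T1 :=
  bT1 SO4.bKIT SX21.bKIT (SX21.bIND SX21.bSPL) st_KIT bCH1 st_ONE st_MIN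

theorem st_T2 : St_T2 := bT2 SO4.bKIT SX21.bKIT st_KIT bCH2 st_ONE st_MIN

theorem st_STEP : St_STEP :=
  bSTEP (bMONO SB97.bQUANT) (bCONC SB97.bHAR)
    (bRES SB97.bHAR (SB97.bPLANT SB97.bHAR)
      (bSPLIT SB97.bHAR (SX21.bCASE SX21.bKIT (SX21.bCOND SX21.bSPL))))

theorem st_CORE : St_CORE (1 / 2) :=
  bCORE (bTOP SB97.bQUANT (bITER st_STEP) (SO4.bRESET SB97.bHAR (SB97.bPLANT SB97.bHAR))
    SB97.bVAR) SX21.bARITH SX21.bRATE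

theorem st_FIN : SO4.St_FIN (1 / 2) :=
  bFIN (1 / 2) SX21.st_FIN1 (fun p x hx hI => SBW.lin1 p x hx hI) SO4.bKIT
    (SO4.bSYS SO4.bBRIDGE SO4.bSMALL SO4.bPEIB) st_DICH (SO4.bLOC SO4.bKIT) st_T1 st_T2 st_CORE

end Pool.Agent.Lib.SO5
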