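import Pool.Agent.Lib.SO5.Blue
import Pool.Agent.Lib.SO4.B_KIT1
import Pool.Agent.Lib.SX21.B_KIT

/-! Row KIT: elementary facts on planted balls for the replaced weights. -/

namespace Pool.Agent.Lib.SO5

open MeasureTheory ProbabilityTheory Filter Topology Finset Pool.Agent.Lib.FP95
open Pool.Agent.Lib.MP_eba68f_pr hiding Nice
open Pool.Agent.Lib.SL94 (SW T)
open Pool.Agent.Lib.SX21 (mk sp OffS)
open Pool.Agent.Lib.SO4 (So sb)
open scoped NNReal ENNReal

namespace KIT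

theorem RM_meas (p : So) (B : Set (Sym2 V)) (Γ : ℝ≥0) (o c : V) :
    Measurable fun τ => RM p B Γ τ o c :=
  (SO4.KIT1.R_meas p o c).comp (SX21.bKIT.2.1 B Γ)

theorem EvM_meas (p : So) (B : Set (Sym2 V)) (Γ : ℝ≥0) (o x : V) (a : V → ℝ) (c : V) :
    MeasurableSet (EvM p B Γ o x a c) :=
  (SO4.KIT1.Spot_meas p o x c).inter (measurableSet_lt (RM_meas p B Γ o c) measurable_const)

theorem sb_mk {r : ℝ≥0} {m : ℕ} {c : V} {B : Set (Sym2 V)} (h : Disjoint (near c m) B)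
    (Γ : ℝ≥0) (τ : Cfg) : sb r m c (mk B Γ τ) = mk B Γ (sb r m c τ) := by
  funext e
  unfold sb SX21.mk sp
  by_cases h1 : e ∈ near c m
  · have h2 : e ∉ B := Set.disjoint_left.1 h h1
    simp only [if_pos h1, if_neg h2]
  · by_cases h2 : e ∈ B
    · simp only [if_neg h1, if_pos h2]
    · simp only [if_neg h1, if_neg h2]

theorem R_lt {p : So} {B : Set (Sym2 V)} {Γ : ℝ≥0} {τ : Cfg} {o c : V} {s : ℝ} (hs : s ≤ Γ)
    (h : Disjoint (near c p.m) B) (h1 : RM p B Γ τ o c < s) : p.R τ o c < s := by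
  have h2 := SX21.bKIT.2.2.2.2.1 B Γ (sb p.r0 p.m c τ) o c
  rw [← sb_mk h] at h2
  exact (min_lt_iff.1 (h2.trans_lt h1)).resolve_right (not_lt.2 hs)

end KIT

theorem bKIT (_ : SO4.St_KIT) (_ : SX21.St_KIT) : St_KIT := fun p B Γ o c =>
  ⟨KIT.RM_meas p B Γ o c, fun x a => KIT.EvM_meas p B Γ o x a c,
    fun τ => by unfold RM; rw [SX21.bKIT.1],
    fun s τ τ' h h1 => by
      show RM p B Γ τ' o c < s
      unfold RM
      rw [← SX21.bKIT.2.2.2.1 B Γ τ τ' h]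
      exact h1,
    fun s hs h => measureReal_mono fun _ h1 => KIT.R_lt hs h h1⟩

end Pool.Agent.Lib.SO5
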