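import Pool.Agent.Lib.SO5.Blue
import Pool.Agent.Lib.SB97.B_RESET

/-! Row RES for an abstract system. -/

namespace Pool.Agent.Lib.SO5

open MeasureTheory ProbabilityTheory Filter Topology Finset Pool.Agent.Lib.FP95
open Pool.Agent.Lib.MP_eba68f_pr hiding Nice
open Pool.Agent.Lib.SL94 (SW T)
open Pool.Agent.Lib.SB97 (Qt)
open Pool.Agent.Lib.SO4 (Gain Lin Adm Sh Rare)
open scoped NNReal ENNReal

namespace RES

lemma apart (p : SO4.Ab) {u y z y' z' : V} {w i j L ρ : ℕ} (hy : Sh p u w i y) (hz : Sh p u w j z)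
    (hy' : p.nn (y' - y) ≤ 4 * ρ) (hz' : p.nn (z' - z) ≤ 4 * ρ) (hij : i + 2 ≤ j)
    (hL : 2 * L + 8 * ρ ≤ w) : Disjoint (p.nr z' L) (p.nr y' L) := by
  refine p.nr_disjoint ?_
  have h1 : (i + 1) * w + (2 * L + 8 * ρ) ≤ j * w :=
    calc (i + 1) * w + (2 * L + 8 * ρ) ≤ (i + 1) * w + w := Nat.add_le_add_left hL _
      _ = (i + 2) * w := by ring
      _ ≤ j * w := Nat.mul_le_mul_right _ hij
  have h2 : (((i + 1) * w : ℕ) : ℝ) + (2 * L + 8 * ρ) ≤ ((j * w : ℕ) : ℝ) := by exact_mod_cast h1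
  have h3 : p.nn (z - z') = p.nn (z' - z) := by
    unfold SO4.Ab.nn
    rw [n1_sub_comm]
  linarith [hy.2, hz.1, p.nn_tri u y z, p.nn_tri y y' z, p.nn_tri y' z' z]

end RES

open RES in
open Pool.Agent.Lib.SL94 (T_tri T_meas) in
open Pool.Agent.Lib.SB97.RESET (Low lowT parity) in
theorem bRES (hH : SB97.St_HAR) (hP : SB97.St_PLANT) (hS : St_SPLIT) : St_RES := by
  intro p hR K hK hLin g θ H φ ρ L M w hA hθq hθ hg hgH hφ hG hρ c3 c1 c2 c5 hM c4 c0 c6 u v t c7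
    hQ
  have hq := p.q_pos'
  have hd := p.d_pos
  have a0 : 0 < θ := hA.1
  have a1 : θ ≤ 1 := hA.2.1
  have r0 : (0 : ℝ) ≤ ρ := Nat.cast_nonneg _
  have b1 : θ ^ 7 ≤ 1 / 2 := (pow_le_of_le_one a0.le a1 (by norm_num)).trans hθ
  have b2 : θ ^ 27 ≤ θ ^ 26 / 2 := by
    rw [pow_succ]
    nlinarith [pow_pos a0 26]
  have b3 : θ ^ 26 ≤ θ ^ 7 := pow_le_pow_of_le_one a0.le a1 (by norm_num)
  have b4 : θ ^ 26 ≤ θ ^ 7 * θ * p.q * θ ^ 17 :=
    calc θ ^ 26 = θ ^ 7 * θ * θ * θ ^ 17 := by ring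
      _ ≤ θ ^ 7 * θ * p.q * θ ^ 17 := by gcongr
  rw [Nat.cast_add] at c7
  rcases hR.1.1 u v M w (θ ^ 7) θ t H hM (by omega) (by positivity) b1 hA hQ
    (le_trans (le_add_of_nonneg_right (Nat.cast_nonneg _)) c7) c0 with
    h | ⟨S, y, z, A, B, cc, hS', h⟩
  · refine le_trans (by linarith) (h.trans (p.pr_mono fun τ (hτ : T τ u v ≤ _) => ?_))
    show T τ u v ≤ t - g
    linarith
  by_contra h2
  have key : ∀ i ∈ S, ∃ (c : V) (Φ W : Set Cfg), p.nn (c - z i) ≤ 4 * ρ ∧ MeasurableSet Φ ∧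
      IsLowerSet Φ ∧ MeasurableSet W ∧ IsLowerSet W ∧ (p.nr c L).Finite ∧
      (∀ τ τ' : Cfg, (∀ e ∈ p.nr c L, τ e = τ' e) → τ ∈ Φ → τ' ∈ Φ) ∧
      φ / 2 ≤ p.pr Φ ∧ θ ^ 26 ≤ p.pr W ∧ Φ ∩ W ⊆ {τ | T τ u v ≤ t - g} := by
    intro i hi
    obtain ⟨-, iM, adj, -, shz, qA, qB, hAB⟩ := h i hi
    have d1 : (((i + 1) * w : ℕ) : ℝ) ≤ (((M + 1) * w : ℕ) : ℝ) :=
      Nat.cast_le.2 (Nat.mul_le_mul_right _ (Nat.succ_le_succ iM))
    have d3 : ((6 * ρ : ℕ) : ℝ) ≤ p.nn (v - z i) := by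
      linarith [shz.2, p.nn_tri u (z i) v]
    have l1 := (lowT qA.2).inter hH (lowT adj) hq.le
    rcases hS p hR K hK hLin (z i) v θ (B i) H ρ hA hθq hθ hρ c1 c2 d3 (pow_succ θ 7 ▸ qB) with
      h' | ⟨z₀, y₀, γ, A', W, e0, e1, e2, g1, g2, qA', w1, w2, w3, w4⟩
    · refine absurd (le_trans ?_ ((l1.inter hH (lowT h') (by positivity)).2.2.trans
        (p.pr_mono ?_))) h2
      · linarith [pow_pos a0 26]
      · rintro τ ⟨⟨k1, k2⟩, k3⟩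
        have k1' : T τ u (y i) ≤ A i := k1
        have k2' : T τ (y i) (z i) ≤ cc i := k2
        have k3' : T τ (z i) v ≤ B i - H + p.d / 2 := k3
        show T τ u v ≤ t - g
        linarith [T_tri τ u (y i) v, T_tri τ (y i) (z i) v]
    · have e3 := hG z₀ y₀ _ _ e1 g1 g2 qA'
      rw [pow_zero, mul_one] at e3
      have e4 := (hLin z₀ y₀ _ (qA'.1.trans g2)).trans (mul_le_mul_of_nonneg_left e2 hK.le)
      obtain ⟨Φ, m1, m2, m3, m4, m5⟩ := hR.1.2 z₀ y₀ (A' - g + p.d / 2) L (by linarith)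
      have e5 : p.pr {τ | T τ z₀ y₀ ≤ A' - g} ≤ p.pr {τ | T τ z₀ y₀ < A' - g + p.d / 2} :=
        p.pr_mono fun τ (hτ : T τ z₀ y₀ ≤ A' - g) =>
          show T τ z₀ y₀ < A' - g + p.d / 2 by linarith
      have l2 := l1.inter hH (⟨w1, w2, w3⟩ : Low p.toPar (θ ^ 17) W) (by positivity)
      refine ⟨z₀, Φ, _, e0, m1, m2, l2.1, l2.2.1, p.nr_finite _ _, m3, by linarith,
        b4.trans l2.2.2, ?_⟩
      rintro τ ⟨k0, ⟨k1, k2⟩, k3⟩
      have k1' : T τ u (y i) ≤ A i := k1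
      have k2' : T τ (y i) (z i) ≤ cc i := k2
      show T τ u v ≤ t - g
      linarith [m4 τ k0, w4 τ k3, T_tri τ u (y i) v, T_tri τ (y i) (z i) v]
  choose! c Φ W hΦ using key
  obtain ⟨S₀, sub, hc0, hsep⟩ := parity S
  refine h2 (b2.trans (hP p.toPar S₀ Φ W _ (fun i => p.nr (c i) L) _ (φ / 2) (by positivity)
    (by positivity) (measurableSet_le (T_meas u v) measurable_const)
    (fun i hi => (hΦ i (sub hi)).2) (fun i hi j hj hij => ?_) ?_))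
  · rcases lt_or_gt_of_ne hij with h3 | h3
    · exact (apart p (h i (sub hi)).2.2.2.2.1 (h j (sub hj)).2.2.2.2.1 (hΦ i (sub hi)).1
        (hΦ j (sub hj)).1 (hsep i hi j hj h3) c4).symm
    · exact apart p (h j (sub hj)).2.2.2.2.1 (h i (sub hi)).2.2.2.2.1 (hΦ j (sub hj)).1
        (hΦ i (sub hi)).1 (hsep j hj i hi h3) c4
  · have x1 : (M : ℝ) ≤ 4 * S₀.card := by exact_mod_cast (by omega : M ≤ 4 * S₀.card)
    have x2 := mul_le_mul_of_nonneg_right (mul_le_mul_of_nonneg_left x1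
      (pow_pos a0 52).le) hφ.le
    have x3 : (θ ^ 26) ^ 2 = θ ^ 52 := by ring
    rw [x3]
    linarith

end Pool.Agent.Lib.SO5
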