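import Pool.Agent.Lib.SO4.Blue
import Pool.Agent.Lib.SX21.Blue0

/-! Rows for the variance bound with fixed levels below the oriented threshold. -/

namespace Pool.Agent.Lib.SO5

open MeasureTheory ProbabilityTheory Filter Topology Finset Pool.Agent.Lib.FP95
open Pool.Agent.Lib.MP_eba68f_pr hiding Nice
open Pool.Agent.Lib.SL94 (SW T)
open Pool.Agent.Lib.SB97 (Qt)
open Pool.Agent.Lib.SX21 (mk OffS Rep Psi Wn)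
open Pool.Agent.Lib.SO4 (So Gain Lin Adm Sh Rare Bad sb Chain)
open scoped NNReal ENNReal

/-! ### upper part -/

/-- the outside decides much: the near leg has a high level -/
def T1 (p : SO4.Ab) : Prop :=
  ∀ (Z : Set Cfg) (u v : V) (α κ θ t H : ℝ) (w : ℕ), Adm p θ H → 0 < α → α ≤ 1 → 0 < κ →
  κ ≤ 1 → 2 ≤ w → ((2 * w : ℕ) : ℝ) ≤ p.nn (v - u) →
  200 * (w : ℝ) ^ 2 * (1 / 2) ^ (w - 1) ≤ κ * α / 2 → MeasurableSet Z →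
  OffS (p.nr u ((2 * w : ℕ) : ℝ)) Z → κ * α / 2 ≤ p.pr ({τ | T τ u v < t} ∩ Z) →
  κ / 2 * p.pr Z ≤ p.pr ({τ | T τ u v < t} ∩ Z) →
  κ * α / 4 ≤ p.pr {τ | T τ u v ≤ t - H + p.d / 2} ∨
    ∃ (y z : V) (A A' c : ℝ), p.q ≤ p.pr {τ | T τ y z ≤ c} ∧ Sh p u w 1 y ∧ Sh p u w 1 z ∧
      Qt p.toPar (κ * θ / 2) u y A ∧ Qt p.toPar (κ * α * θ / 2) z v A' ∧
      A + c + A' ≤ t - p.d / 2

/-- the outside decides little: the far leg has a high level -/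
def T2 (p : SO4.Ab) : Prop :=
  ∀ (B : Set (Sym2 V)) (u v : V) (α κ θ t H : ℝ) (w : ℕ), Adm p θ H → 0 < α → α ≤ 1 / 2 →
  0 < κ → α * θ / κ ≤ p.q / 2 → 2 ≤ w → B ⊆ p.nr u w → ((2 * w : ℕ) : ℝ) ≤ p.nn (v - u) →
  200 * (w : ℝ) ^ 2 * (1 / 2) ^ (w - 1) ≤ α → Qt p.toPar α u v t →
  Rep p.toPar B Set.univ (Psi u v t H) (H ^ 2 * (κ * α)) →
  α / 2 ≤ p.pr {τ | T τ u v ≤ t - H + p.d / 2} ∨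
    ∃ (y z : V) (A A' c : ℝ), p.q ≤ p.pr {τ | T τ y z ≤ c} ∧ Sh p u w 1 y ∧ Sh p u w 1 z ∧
      Qt p.toPar (α * θ) u y A ∧ Qt p.toPar (α * θ / κ) z v A' ∧ A + c + A' ≤ t - p.d / 2

/-- the four facts used by the iteration -/
def Rare2 (p : SO4.Ab) : Prop := Rare p ∧ T1 p ∧ T2 p

/-- a short segment of high level -/
def St_SPLIT : Prop := ∀ (p : SO4.Ab), Rare2 p → ∀ (K : ℝ), 0 < K → Lin p K →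
  ∀ (z v : V) (θ t H : ℝ) (ρ : ℕ), Adm p θ H → θ ≤ p.q → θ ≤ 1 / 2 → 2 ≤ ρ →
  200 * (ρ : ℝ) ^ 2 * (1 / 2) ^ (ρ - 1) ≤ θ ^ 13 →
  200 * ((2 * ρ : ℕ) : ℝ) ^ 2 * (1 / 2) ^ (2 * ρ - 1) ≤ θ ^ 8 →
  ((6 * ρ : ℕ) : ℝ) ≤ p.nn (v - z) → Qt p.toPar (θ ^ 8) z v t →
  θ ^ 17 ≤ p.pr {τ | T τ z v ≤ t - H + p.d / 2} ∨
    ∃ (z₀ y₀ : V) (γ A : ℝ) (W : Set Cfg), p.nn (z₀ - z) ≤ 4 * ρ ∧
      (ρ : ℝ) ≤ p.nn (y₀ - z₀) ∧ p.nn (y₀ - z₀) ≤ 2 * ρ ∧ θ ^ 6 ≤ γ ∧ γ ≤ 1 / 2 ∧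
      Qt p.toPar γ z₀ y₀ A ∧ MeasurableSet W ∧ IsLowerSet W ∧ θ ^ 17 ≤ p.pr W ∧
      ∀ τ ∈ W, T τ z v ≤ T τ z₀ y₀ + (t - A) - p.d / 2

/-- one level is enough -/
def St_MONO : Prop := ∀ (p : SO4.Ab) (g ρ π c : ℝ), 0 < π → π < 1 →
  (∀ (u v : V) (t : ℝ), ρ ≤ p.nn (v - u) → Qt p.toPar π u v t →
    c ≤ p.pr {τ | T τ u v ≤ t - g}) → Gain p g ρ π 0 c

/-- two halves -/
def St_CONC : Prop := ∀ (p : SO4.Ab), Rare2 p → ∀ (g π θ H c : ℝ) (ρ : ℕ), Adm p θ H → θ ≤ p.q →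
  2 * g + p.d ≤ H → 2 ≤ ρ → 0 < π → 0 ≤ c → c ≤ π / 2 →
  200 * (ρ : ℝ) ^ 2 * (1 / 2) ^ (ρ - 1) ≤ π →
  Gain p g ρ (π * θ) 0 c → Gain p (2 * g + p.d / 2) ((3 * ρ : ℕ) : ℝ) π 0 (θ * c ^ 2)

/-- many places -/
def St_RES : Prop := ∀ (p : SO4.Ab), Rare2 p → ∀ (K : ℝ), 0 < K → Lin p K →
  ∀ (g θ H φ : ℝ) (ρ L M w : ℕ), Adm p θ H → θ ≤ p.q → θ ≤ 1 / 2 → 0 ≤ g → g + p.d / 2 ≤ H →
  0 < φ → Gain p g ρ (θ ^ 6) 0 φ → 2 ≤ ρ → 4 * K * ρ + p.d ≤ p.hi * L →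
  200 * (ρ : ℝ) ^ 2 * (1 / 2) ^ (ρ - 1) ≤ θ ^ 13 →
  200 * ((2 * ρ : ℕ) : ℝ) ^ 2 * (1 / 2) ^ (2 * ρ - 1) ≤ θ ^ 8 →
  (1 / 2) ^ L ≤ φ / 2 → 1 ≤ M → 2 * L + 8 * ρ ≤ w →
  200 * ((M : ℝ) * w) ^ 2 * (1 / 2) ^ (w - 1) ≤ θ ^ 7 → 32 ≤ θ ^ 52 * M * φ →
  ∀ (u v : V) (t : ℝ), (((M + 1) * w + 6 * ρ : ℕ) : ℝ) ≤ p.nn (v - u) →
  Qt p.toPar (θ ^ 7) u v t → θ ^ 27 ≤ p.pr {τ | T τ u v ≤ t - g}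

/-- one round -/
def St_STEP : Prop := ∀ (p : SO4.Ab), Rare2 p → ∀ (K g θ H : ℝ) (C₀ ρ M : ℕ), 0 < K →
  Lin p K → 2 ≤ C₀ → 4 * K + p.d ≤ p.hi * C₀ → Adm p θ H → θ ≤ p.q → θ ≤ 1 / 2 → 0 ≤ g →
  2 * g + p.d ≤ H → 2 ≤ ρ → 32 ≤ θ ^ 107 * M →
  400 * (((6 * C₀ + 24 : ℕ) : ℝ) * M * ρ) ^ 2 * (1 / 2) ^ ρ ≤ θ ^ 56 →
  Gain p g ρ (θ ^ 7) 0 (θ ^ 27) →
  Gain p (2 * g + p.d / 2) (((12 * C₀ + 66) * M * ρ : ℕ) : ℝ) (θ ^ 7) 0 (θ ^ 27)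

/-- `n` rounds -/
def St_ITER : Prop := ∀ (p : SO4.Ab), Rare2 p → ∀ (K θ H : ℝ) (C₀ ρ₀ M n : ℕ), 0 < K →
  Lin p K → 2 ≤ C₀ → 4 * K + p.d ≤ p.hi * C₀ → Adm p θ H → θ ≤ p.q → θ ≤ 1 / 2 →
  2 ^ n * p.d ≤ H → 2 ≤ ρ₀ → 32 ≤ θ ^ 107 * M →
  (∀ ρ : ℕ, ρ₀ ≤ ρ → 400 * (((6 * C₀ + 24 : ℕ) : ℝ) * M * ρ) ^ 2 * (1 / 2) ^ ρ ≤ θ ^ 56) →
  Gain p ((2 ^ n - 1) * p.d / 2) ((((12 * C₀ + 66) * M) ^ n * ρ₀ : ℕ) : ℝ) (θ ^ 7) 0 (θ ^ 27)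

/-- the last round -/
def St_TOP : Prop := ∀ (p : SO4.Ab), Rare2 p → ∀ (K : ℝ) (C₀ ρ₀ M k : ℕ), 0 < K → Lin p K →
  2 ≤ C₀ → 4 * K + p.d ≤ p.hi * C₀ → 1 ≤ k → 2 ≤ ρ₀ →
  32 ≤ ((p.q / 2560) ^ 2 / 4 ^ (6 * k)) ^ 107 * M →
  (∀ ρ : ℕ, ρ₀ ≤ ρ → 400 * (((6 * C₀ + 24 : ℕ) : ℝ) * M * ρ) ^ 2 * (1 / 2) ^ ρ ≤
    ((p.q / 2560) ^ 2 / 4 ^ (6 * k)) ^ 56) →
  ∀ x : V, ((((12 * C₀ + 66) * M) ^ (6 * k + 1) * ρ₀ : ℕ) : ℝ) ≤ p.nn x →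
  MemLp (fun τ => T τ 0 x) 2 p.P →
  p.q ^ 2 * ((p.q / 2560) ^ 2) ^ 3 * p.d ^ 2 / 1024 * 4 ^ k ≤ variance (fun τ => T τ 0 x) p.P

/-- the bound for a system, uniform in the constants -/
def St_CORE (γ : ℝ) : Prop := ∀ (q d K : ℝ) (L : ℕ), 0 < q → q ≤ 1 → 0 < d → 0 < K →
  ∃ c : ℝ, 0 < c ∧ ∃ N : ℝ, ∀ p : SO4.Ab, Rare2 p → p.q = q → p.d = d → p.L = L → Lin p K →
    ∀ x : V, N ≤ n1 x → MemLp (fun τ => T τ 0 x) 2 p.P →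
      Real.exp (c * Real.log (n1 x) ^ γ) ≤ variance (fun τ => T τ 0 x) p.P

/-! ### lower part -/

/-- passage time to the centre of a planted ball for the replaced weights -/
noncomputable def RM (p : So) (B : Set (Sym2 V)) (Γ : ℝ≥0) (τ : Cfg) (o c : V) : ℝ :=
  p.R (mk B Γ τ) o c

/-- a spot that the replaced growth reaches early -/
def EvM (p : So) (B : Set (Sym2 V)) (Γ : ℝ≥0) (o x : V) (a : V → ℝ) (c : V) : Set Cfg :=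
  p.Spot o x c ∩ {τ | RM p B Γ τ o c < a c}

/-- the middle part of the first shell -/
def Band (m w : ℕ) (u c : V) : Prop :=
  (m : ℝ) * (w + 1) < n1 (c - u) ∧ n1 (c - u) ≤ (m : ℝ) * (2 * w - 1)

/-- a chain of a nearly optimal walk in the band, also for the replaced weights -/
def Cr (m : ℕ) (τ : Cfg) (B₁ B₂ : Set (Sym2 V)) (Γ : ℝ≥0) (u v : V) (w : ℕ) (s : ℝ) : Prop :=
  ∃ y, Chain m (w - 3) y ∧ n1 (y 0 - u) ≤ (m : ℝ) * (w + 2) ∧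
    (∀ j, j ≤ w - 3 → Band m w u (y j)) ∧ ∀ j, j < w - 3 →
      T τ u (y j) + T τ (y j) (y (j + 1)) + T τ (y (j + 1)) v ≤ T τ u v + s ∧
      T (mk B₁ Γ τ) u (y j) + T τ (y j) (y (j + 1)) + T (mk B₂ Γ τ) (y (j + 1)) v ≤ T τ u v + s

/-- elementary facts -/
def St_KIT : Prop := ∀ (p : So) (B : Set (Sym2 V)) (Γ : ℝ≥0) (o c : V),
  (Measurable fun τ => RM p B Γ τ o c) ∧ (∀ x a, MeasurableSet (EvM p B Γ o x a c)) ∧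
  (∀ τ, RM p ∅ Γ τ o c = p.R τ o c) ∧ (∀ s : ℝ, OffS B {τ | RM p B Γ τ o c < s}) ∧
  ∀ s : ℝ, s ≤ Γ → Disjoint (near c p.m) B →
    p.pr {τ | RM p B Γ τ o c < s} ≤ p.pr {τ | p.R τ o c < s}

/-- the martingale bound for the replaced growth -/
def St_SUM : Prop := ∀ (p : So) (B : Set (Sym2 V)) (Γ : ℝ≥0) (Z : Set Cfg) (o x : V) (a : V → ℝ)
  (π S t H lam : ℝ) (I : Finset V), p.r0 ≤ Γ → 0 < lam → 0 ≤ H → MeasurableSet Z →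
  (∀ c ∈ I, Disjoint (near c p.m) B ∧ OffS (near c p.m) Z ∧
    p.pr ({τ | RM p B Γ τ o c < a c} ∩ Z) ≤ π) →
  Rep p.toPar B Z (Psi o x t H) S →
  p.kap * p.d / 2 * ∑ c ∈ I, p.pr (EvM p B Γ o x a c ∩ (Wn (p.d / 2) o x t H ∩ Z)) ≤
    lam / 2 * S + (4 * (p.m : ℝ) + 1) ^ 2 * π / (2 * lam) * I.card

/-- the martingale bound with the constants -/
def St_SUMC : Prop := ∀ (p : So) (B : Set (Sym2 V)) (Γ : ℝ≥0) (Z : Set Cfg) (o x : V)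
  (a : V → ℝ) (π σ ε θ t H : ℝ) (w : ℕ) (I : Finset V), p.r0 ≤ Γ → 0 < θ → 0 < H →
  (2560 * H) ^ 2 * θ ≤ (p.q * p.d) ^ 2 → 0 < σ → 0 < ε → 0 ≤ π → p.kap * (σ * π) ≤ ε ^ 2 * θ →
  6 ≤ w → (I.card : ℝ) ≤ 25 * ((p.m : ℝ) * w) ^ 2 → MeasurableSet Z →
  (∀ c ∈ I, Disjoint (near c p.m) B ∧ OffS (near c p.m) Z ∧
    p.pr ({τ | RM p B Γ τ o c < a c} ∩ Z) ≤ π) →
  Rep p.toPar B Z (Psi o x t H) (H ^ 2 * σ) →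
  ∑ c ∈ I, p.pr (EvM p B Γ o x a c ∩ (Wn (p.d / 2) o x t H ∩ Z)) ≤ ε * ((w - 3 : ℕ) : ℝ) / 64

/-- the chain before the first exit -/
def St_CH1 : Prop := ∀ (m : ℕ) (τ : Cfg) (Γ : ℝ≥0) (u v : V) (w : ℕ) (s : ℝ), 1 ≤ m → 3 ≤ w →
  0 < s → (m : ℝ) * ((2 * w : ℕ) : ℝ) ≤ n1 (v - u) →
  Cr m τ (near u ((m : ℝ) * ((2 * w : ℕ) : ℝ)))ᶜ ∅ Γ u v w s

/-- the chain after the last visit -/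
def St_CH2 : Prop := ∀ (m : ℕ) (τ : Cfg) (B : Set (Sym2 V)) (Γ : ℝ≥0) (u v : V) (w : ℕ) (s : ℝ),
  1 ≤ m → 3 ≤ w → 0 < s → B ⊆ near u ((m : ℝ) * w) → (m : ℝ) * ((2 * w : ℕ) : ℝ) ≤ n1 (v - u) →
  Cr m τ ∅ B Γ u v w s

/-- a site of the chain that is not bad is a spot for the replaced weights -/
def St_GAP : Prop := ∀ (p : So) (τ : Cfg) (B₁ B₂ : Set (Sym2 V)) (Γ : ℝ≥0) (u v y z : V),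
  (∀ e, p.r0 ≤ τ e) → p.r0 ≤ Γ → τ ∉ Bad p.hi p.k y → n1 (z - y) = p.m →
  T (mk B₁ Γ τ) u y + T τ y z + T (mk B₂ Γ τ) z v ≤ T τ u v + p.d / 2 →
  RM p B₁ Γ τ u y + RM p B₂ Γ τ v y + p.d / 2 ≤ T τ u v

/-- one good site in the band -/
def St_ONE : Prop := ∀ (p : So), p.Few → ∀ (B₁ B₂ : Set (Sym2 V)) (Γ : ℝ≥0) (Z : Set Cfg)
  (u v : V) (a b : V → ℝ) (π₁ σ₁ π₂ σ₂ ε θ t H : ℝ) (w : ℕ), p.r0 ≤ Γ → 0 < θ → 0 < H →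
  (2560 * H) ^ 2 * θ ≤ (p.q * p.d) ^ 2 → 0 < σ₁ → 0 < σ₂ → 0 < ε → 0 ≤ π₁ → 0 ≤ π₂ →
  p.kap * (σ₁ * π₁) ≤ ε ^ 2 * θ → p.kap * (σ₂ * π₂) ≤ ε ^ 2 * θ → 6 ≤ w → MeasurableSet Z →
  200 * (w : ℝ) ^ 2 * (1 / 2) ^ (w - 1) ≤ ε →
  (∀ c, Band p.m w u c → Disjoint (near c p.m) B₁ ∧ Disjoint (near c p.m) B₂ ∧
    OffS (near c p.m) Z ∧ p.pr ({τ | RM p B₁ Γ τ u c < a c} ∩ Z) ≤ π₁ ∧
    p.pr ({τ | RM p B₂ Γ τ v c < b c} ∩ Z) ≤ π₂) →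
  Rep p.toPar B₁ Z (Psi u v t H) (H ^ 2 * σ₁) → Rep p.toPar B₂ Z (Psi u v t H) (H ^ 2 * σ₂) →
  ε / 2 ≤ p.pr (Wn (p.d / 2) u v t H ∩ Z) → (∀ τ, Cr p.m τ B₁ B₂ Γ u v w (p.d / 2)) →
  ∃ c, Band p.m w u c ∧ a c + b c + p.d / 2 ≤ t

/-- a value below a quantile of the planted time gives a quantile of the passage time -/
def St_MIN : Prop := ∀ (p : So) (o c : V) (β a : ℝ), 0 < β → β < 1 →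
  β / p.kap ≤ p.pr {τ | p.R τ o c ≤ a} → ∃ A, A ≤ a ∧ Qt p.toPar β o c A

/-- the first case -/
def St_T1 : Prop := ∀ (p : So) (p' : SO4.Ab), p.Few → p'.toPar = p.toPar → p'.q = p.q →
  p'.d = p.d → p'.L = p.m → T1 p'

/-- the second case -/
def St_T2 : Prop := ∀ (p : So) (p' : SO4.Ab), p.Few → p'.toPar = p.toPar → p'.q = p.q →
  p'.d = p.d → p'.L = p.m → T2 p'

end Pool.Agent.Lib.SO5
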